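import Pool.Agent.Lib.MP_365e45_an.Weight

/-!
The weight is admissible and satisfies the Fourier approximation condition.
-/

set_option autoImplicit false

namespace Pool.Agent.Lib.MP_365e45_an

open Finset Filter

/-- the weight. -/
noncomputable def wt (n : ℤ) : ℂ := 1 + (hZ n : ℂ)

/-- the coefficients. -/
noncomputable def Sc (r : ℚ) : ℂ := if r.den = 1 then 1 else 0

/-- the levels. -/
def Ml (_ : ℕ) : ℕ := 1

lemma ramanujan_one (n : ℤ) : ramanujanTerm Sc 1 n = 1 := by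
  unfold ramanujanTerm Sc e
  have : (Finset.range 1).filter (fun a => Nat.Coprime a 1) = {0} := by decide
  rw [this, Finset.sum_singleton]
  simp

lemma majorArc_one (n : ℤ) : majorArcSum Sc 1 n = 1 := by
  unfold majorArcSum
  simp [ramanujan_one]

lemma dyadicSum_one (n : ℤ) : dyadicSum Sc 1 n = 1 := by
  unfold dyadicSum dyadicPiece
  have h1 : (Finset.range (1 + 1)).filter (fun j => 2 ^ j ≤ 1) = {0} := by decide
  rw [h1, Finset.sum_singleton]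
  have h2 : (Finset.Icc 1 (2 ^ 0)).filter (fun q => 2 ^ 0 < 2 * q) = {1} := by decide
  rw [h2, Finset.sum_singleton, ramanujan_one]

lemma V_trunc_nonneg (N : ℕ) : (0 : ℝ) ≤ ((V (N + 1) (truncZ N hZ) : ℤ) : ℝ) := by
  have : NeZero (4 * (N + 1)) := ⟨by positivity⟩
  rw [← S3_lift (4 * (N + 1)) (N + 1) le_rfl (truncZ N hZ) (truncZ_zero_of_neg N hZ)
    (truncZ_zero_of_ge N hZ)]
  exact S3_nonneg _

lemma gowersNorm_h_le (N : ℕ) (hN : 1 ≤ N) :
    gowersNorm 3 N (fun n => (hZ n : ℂ)) ≤ 26 * (39 / 40) ^ (Nat.log 64 N) := by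
  set K := Nat.log 64 N with hK
  have h1 : 64 ^ K ≤ N := Nat.pow_log_le_self 64 (by omega)
  have h2 : N < 64 ^ (K + 1) := Nat.lt_pow_succ_log_self (by norm_num) N
  unfold gowersNorm
  have hone : gowersSum 3 N (fun _ => 1) = ((V (N + 1) (truncZ N (fun _ => 1)) : ℤ) : ℂ) := by
    have := gowersSum_three N (fun _ => 1)
    simpa using this
  rw [gowersSum_three, hone]
  set A : ℝ := ((V (N + 1) (truncZ N hZ) : ℤ) : ℝ) with hA
  set B : ℝ := ((V (N + 1) (truncZ N (fun _ => 1)) : ℤ) : ℝ) with hB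
  have e1 : ‖((V (N + 1) (truncZ N hZ) : ℤ) : ℂ)‖ = A := by
    rw [Complex.norm_intCast, abs_of_nonneg (V_trunc_nonneg N)]
  have hNpos : (0 : ℝ) < N := by exact_mod_cast hN
  have hBlow : (N : ℝ) ^ 4 / 256 ≤ B := V_one_ge N
  have hBpos : 0 < B := lt_of_lt_of_le (by positivity) hBlow
  have e2 : ‖((V (N + 1) (truncZ N (fun _ => 1)) : ℤ) : ℂ)‖ = B := by
    rw [Complex.norm_intCast, abs_of_nonneg hBpos.le]
  rw [e1, e2]
  have hAle : A ≤ (13 * q0 ^ K) ^ 8 := V_trunc_le K N h1 h2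
  have hNK : ((64 : ℝ) ^ K) ≤ N := by exact_mod_cast h1
  have hq : (0 : ℝ) < q0 := q0_pos
  have hratio : A / B ≤ (26 * (39 / 40) ^ K) ^ 8 := by
    rw [div_le_iff₀ hBpos]
    have h3 : (26 * (39 / 40 : ℝ) ^ K) ^ 8 * ((N : ℝ) ^ 4 / 256) ≤ (26 * (39 / 40 : ℝ) ^ K) ^ 8 * B :=
      mul_le_mul_of_nonneg_left hBlow (by positivity)
    refine le_trans ?_ h3
    have h4 : (26 * (39 / 40 : ℝ) ^ K) ^ 8 * (((64 : ℝ) ^ K) ^ 4 / 256)
        ≤ (26 * (39 / 40 : ℝ) ^ K) ^ 8 * ((N : ℝ) ^ 4 / 256) := by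
      apply mul_le_mul_of_nonneg_left _ (by positivity)
      have := pow_le_pow_left₀ (by positivity) hNK 4
      linarith
    refine le_trans ?_ h4
    refine hAle.trans (le_of_eq ?_)
    have h5 : ((64 : ℝ) ^ K) ^ 4 = (8 ^ K) ^ 8 := by
      rw [← pow_mul, ← pow_mul, show (64 : ℝ) = 8 ^ 2 by norm_num, ← pow_mul]
      congr 1; ring
    have h6 : q0 ^ K = (39 / 40) ^ K * 8 ^ K := by
      rw [← mul_pow]; unfold q0; norm_num
    rw [h5, h6]
    ring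
  have hnn : 0 ≤ A / B := div_nonneg (V_trunc_nonneg N) hBpos.le
  calc (A / B) ^ ((1 : ℝ) / 2 ^ 3) ≤ ((26 * (39 / 40 : ℝ) ^ K) ^ 8) ^ ((1 : ℝ) / 2 ^ 3) :=
        Real.rpow_le_rpow hnn hratio (by norm_num)
    _ = 26 * (39 / 40) ^ K := by
        rw [← Real.rpow_natCast (26 * (39 / 40 : ℝ) ^ K) 8, ← Real.rpow_mul (by positivity)]
        norm_num

lemma pow_decay (K : ℕ) : (39 / 40 : ℝ) ^ K ≤ 39 / (K + 1) := by
  have h1 : (1 : ℝ) + K * (1 / 39) ≤ (1 + 1 / 39) ^ K := one_add_mul_le_pow (by norm_num) K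
  have h2 : (1 + 1 / 39 : ℝ) = 40 / 39 := by norm_num
  rw [h2] at h1
  have h3 : (39 / 40 : ℝ) ^ K * (40 / 39) ^ K = 1 := by
    rw [← mul_pow]; norm_num
  have hK : (0 : ℝ) ≤ K := Nat.cast_nonneg K
  rw [le_div_iff₀ (by positivity)]
  have h4 : (0 : ℝ) < (39 / 40) ^ K := by positivity
  have h5 : (K + 1 : ℝ) ≤ 39 * (40 / 39) ^ K := by linarith
  calc (39 / 40 : ℝ) ^ K * (K + 1) ≤ (39 / 40 : ℝ) ^ K * (39 * (40 / 39) ^ K) :=
        mul_le_mul_of_nonneg_left h5 h4.le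
    _ = 39 * ((39 / 40 : ℝ) ^ K * (40 / 39) ^ K) := by ring
    _ = 39 := by rw [h3]; ring

lemma log_le (N K : ℕ) (hN : 1 ≤ N) (h2 : N < 64 ^ (K + 1)) : Real.log N ≤ 5 * (K + 1) := by
  have hNpos : (0 : ℝ) < N := by exact_mod_cast hN
  have h3 : (N : ℝ) ≤ 64 ^ (K + 1) := by exact_mod_cast h2.le
  have h4 : Real.log N ≤ Real.log ((64 : ℝ) ^ (K + 1)) := Real.log_le_log hNpos h3
  rw [Real.log_pow] at h4
  have h5 : Real.log 64 ≤ 5 := by
    have h6 : (64 : ℝ) = 2 ^ (6 : ℕ) := by norm_num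
    rw [h6, Real.log_pow]
    have := Real.log_two_lt_d9
    push_cast
    linarith
  have : (0 : ℝ) ≤ (K + 1 : ℕ) := Nat.cast_nonneg _
  push_cast at h4 this
  nlinarith

lemma approx_h : ∃ (C ν : ℝ) (s : ℕ), 4 < ν ∧ 3 ≤ s ∧ ∀ᶠ N : ℕ in atTop,
    gowersNorm s N (fun n => wt n - majorArcSum Sc (Ml N) n) ≤ C * (Real.log N) ^ (-(ν / 2 ^ s)) := by
  refine ⟨26 * 39 * 5, 5, 3, by norm_num, le_rfl, ?_⟩
  filter_upwards [eventually_ge_atTop 3] with N hN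
  have hfun : (fun n => wt n - majorArcSum Sc (Ml N) n) = fun n => (hZ n : ℂ) := by
    funext n; rw [Ml, majorArc_one, wt]; ring
  rw [hfun]
  set K := Nat.log 64 N with hK
  have h2 : N < 64 ^ (K + 1) := Nat.lt_pow_succ_log_self (by norm_num) N
  have hg := gowersNorm_h_le N (by omega)
  rw [← hK] at hg
  have hd := pow_decay K
  have hK0 : (0 : ℝ) ≤ K := Nat.cast_nonneg K
  have hlog := log_le N K (by omega) h2
  have hlog1 : 1 ≤ Real.log N := by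
    rw [Real.le_log_iff_exp_le (by positivity)]
    have h3 : (3 : ℝ) ≤ N := by exact_mod_cast hN
    have := Real.exp_one_lt_d9
    linarith
  have hlogpos : 0 < Real.log N := by linarith
  have e1 : -((5 : ℝ) / 2 ^ 3) = -(5 / 8) := by norm_num
  rw [e1, Real.rpow_neg hlogpos.le]
  have hr : (Real.log N) ^ ((5 : ℝ) / 8) ≤ 5 * (K + 1) := by
    calc (Real.log N) ^ ((5 : ℝ) / 8) ≤ (Real.log N) ^ (1 : ℝ) :=
          Real.rpow_le_rpow_of_exponent_le hlog1 (by norm_num)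
      _ = Real.log N := Real.rpow_one _
      _ ≤ 5 * (K + 1) := hlog
  have hrpos : 0 < (Real.log N) ^ ((5 : ℝ) / 8) := Real.rpow_pos_of_pos hlogpos _
  calc gowersNorm 3 N (fun n => (hZ n : ℂ)) ≤ 26 * (39 / 40) ^ K := hg
    _ ≤ 26 * (39 / (K + 1)) := by linarith
    _ ≤ 26 * 39 * 5 * ((Real.log N) ^ ((5 : ℝ) / 8))⁻¹ := by
        rw [← div_eq_mul_inv, le_div_iff₀ hrpos]
        calc 26 * (39 / ((K : ℝ) + 1)) * (Real.log N) ^ ((5 : ℝ) / 8)
            ≤ 26 * (39 / ((K : ℝ) + 1)) * (5 * (K + 1)) :=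
              mul_le_mul_of_nonneg_left hr (by positivity)
          _ = 26 * 39 * 5 := by field_simp

lemma coeff_h : ∀ ε : ℝ, 0 < ε → ∃ C : ℝ, ∀ r : ℚ, ‖Sc r‖ ≤ C * (r.den : ℝ) ^ (ε - 1) := by
  intro ε _
  refine ⟨1, fun r => ?_⟩
  unfold Sc
  split_ifs with h
  · rw [h]; simp
  · simp only [norm_zero, one_mul]
    positivity

lemma level_h : ∀ ε : ℝ, 0 < ε → ∀ᶠ N : ℕ in atTop, (Ml N : ℝ) ≤ (N : ℝ) ^ ε := by
  intro ε hε
  filter_upwards [eventually_ge_atTop 1] with N hN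
  have h1 : (1 : ℝ) ≤ N := by exact_mod_cast hN
  simp only [Ml, Nat.cast_one]
  exact Real.one_le_rpow h1 hε.le

/-! Upper normalization -/

lemma sum_abs_HZ (j : ℕ) : ∑ z ∈ range (64 ^ j), |HZ j (z : ℤ)| = 64 ^ j := by
  induction j with
  | zero => simp [HZ]
  | succ j ih =>
    have h0 : ∑ d ∈ range 64, |etaZ (d : ℤ)| = 64 := by decide +kernel
    rw [pow_succ, mul_comm, sum_range_64]
    have h1 : ∀ a ∈ range (64 ^ j), ∑ d ∈ range 64, |HZ (j + 1) ((64 * a + d : ℕ) : ℤ)|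
        = 64 * |HZ j (a : ℤ)| := by
      intro a _
      rw [← h0, Finset.sum_mul]
      refine Finset.sum_congr rfl fun d hd => ?_
      rw [Finset.mem_range] at hd
      push_cast
      rw [HZ_step j a d (by omega) (by omega), abs_mul]
    rw [Finset.sum_congr rfl h1, ← Finset.mul_sum, ih, pow_succ, mul_comm]

lemma sum_abs_HZ_shift (j : ℕ) (L : ℕ) :
    ∑ n ∈ range L, |HZ j ((n : ℤ) - ((64 ^ j : ℕ) : ℤ))| ≤ 64 ^ j := by
  have h1 : ∑ n ∈ range L, |HZ j ((n : ℤ) - ((64 ^ j : ℕ) : ℤ))|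
      ≤ ∑ n ∈ range (64 ^ j + (L + 64 ^ j)), |HZ j ((n : ℤ) - ((64 ^ j : ℕ) : ℤ))| :=
    Finset.sum_le_sum_of_subset_of_nonneg
      (Finset.range_subset_range.2 ((Nat.le_add_right L (64 ^ j)).trans (Nat.le_add_left _ _)))
      (fun _ _ _ => abs_nonneg _)
  refine h1.trans ?_
  rw [Finset.sum_range_add]
  have h2 : ∑ n ∈ range (64 ^ j), |HZ j ((n : ℤ) - ((64 ^ j : ℕ) : ℤ))| = 0 := by
    apply Finset.sum_eq_zero
    intro n hn
    rw [HZ_neg, abs_zero]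
    have : n < 64 ^ j := Finset.mem_range.1 hn
    have : (n : ℤ) < ((64 ^ j : ℕ) : ℤ) := by exact_mod_cast this
    omega
  rw [h2, zero_add]
  have h3 : ∑ n ∈ range (L + 64 ^ j), |HZ j (((64 ^ j + n : ℕ) : ℤ) - ((64 ^ j : ℕ) : ℤ))|
      = ∑ n ∈ range (L + 64 ^ j), |HZ j (n : ℤ)| := by
    refine Finset.sum_congr rfl fun n _ => ?_
    congr 2; push_cast; ring
  rw [h3]
  have h4 : ∑ n ∈ range (L + 64 ^ j), |HZ j (n : ℤ)| = ∑ n ∈ range (64 ^ j), |HZ j (n : ℤ)| := by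
    symm
    apply Finset.sum_subset (Finset.range_subset_range.2 (Nat.le_add_left _ _))
    intro n _ hn
    rw [Finset.mem_range, not_lt] at hn
    rw [HZ_ge, abs_zero]
    exact_mod_cast hn
  rw [h4, sum_abs_HZ]

lemma geom64 (K : ℕ) : ∑ j ∈ range (K + 1), (64 : ℤ) ^ j ≤ 2 * 64 ^ K := by
  induction K with
  | zero => simp
  | succ K ih =>
    rw [Finset.sum_range_succ, pow_succ]
    have : (0 : ℤ) < 64 ^ K := by positivity
    nlinarith

lemma sum_abs_hZ (b : ℕ) : ∑ n ∈ Finset.Icc (1 : ℤ) b, |hZ n| ≤ 2 * b := by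
  by_cases hb : b = 0
  · subst hb; simp
  set K := Nat.log 64 b with hK
  have h1 : 64 ^ K ≤ b := Nat.pow_log_le_self 64 hb
  have h2 : b < 64 ^ (K + 1) := Nat.lt_pow_succ_log_self (by norm_num) b
  have h0 : hZ 0 = 0 := by rw [hZ, if_neg (by norm_num)]
  have e1 : ∑ n ∈ Finset.Icc (1 : ℤ) b, |hZ n| = ∑ n ∈ range (b + 1), |hZ (n : ℤ)| := by
    rw [Finset.sum_range_succ']
    simp only [Nat.cast_zero, h0, abs_zero, add_zero]
    symm
    refine Finset.sum_bij' (fun n _ => ((n + 1 : ℕ) : ℤ)) (fun y _ => y.toNat - 1) ?_ ?_ ?_ ?_ ?_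
    · intro n hn; rw [Finset.mem_range] at hn; rw [Finset.mem_Icc]; omega
    · intro y hy; rw [Finset.mem_Icc] at hy; rw [Finset.mem_range]; omega
    · intro n _; simp
    · intro y hy; rw [Finset.mem_Icc] at hy; push_cast; omega
    · intro n _; rfl
  rw [e1]
  calc ∑ n ∈ range (b + 1), |hZ (n : ℤ)|
      ≤ ∑ n ∈ range (b + 1), ∑ j ∈ range (K + 1), |HZ j ((n : ℤ) - ((64 ^ j : ℕ) : ℤ))| := by
        refine Finset.sum_le_sum fun n hn => ?_
        rw [Finset.mem_range] at hn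
        rw [hZ_eq_sum K n (by
          have : n < 64 ^ (K + 1) := by omega
          exact_mod_cast this)]
        exact Finset.abs_sum_le_sum_abs _ _
    _ = ∑ j ∈ range (K + 1), ∑ n ∈ range (b + 1), |HZ j ((n : ℤ) - ((64 ^ j : ℕ) : ℤ))| :=
        Finset.sum_comm
    _ ≤ ∑ j ∈ range (K + 1), 64 ^ j := Finset.sum_le_sum fun j _ => sum_abs_HZ_shift j _
    _ ≤ 2 * 64 ^ K := geom64 K
    _ ≤ 2 * b := by
        have : (64 : ℤ) ^ K ≤ b := by exact_mod_cast h1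
        linarith

lemma upper_h : UpperNormalized wt := by
  refine ⟨12, fun ε hε => ⟨1, fun a b hab _ h10 => ?_⟩⟩
  set I : ℤ := b - a + 1 with hI
  have hIpos : 0 < I := by omega
  have hIpos' : (0 : ℝ) < ((I : ℤ) : ℝ) := by exact_mod_cast hIpos
  rw [div_le_iff₀ hIpos']
  have hnorm : ∀ n : ℤ, ‖wt n‖ ≤ 1 + ((|hZ n| : ℤ) : ℝ) := by
    intro n
    unfold wt
    refine (norm_add_le _ _).trans ?_
    rw [norm_one, Complex.norm_intCast]; simp
  have h1 : ∑ n ∈ Finset.Icc a b, ‖wt n‖ ≤ (I : ℝ) + ((∑ n ∈ Finset.Icc a b, |hZ n| : ℤ) : ℝ) := by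
    refine (Finset.sum_le_sum fun n _ => hnorm n).trans ?_
    rw [Finset.sum_add_distrib]
    push_cast
    simp only [Finset.sum_const, Int.card_Icc, nsmul_eq_mul, mul_one]
    have e : (((b + 1 - a).toNat : ℕ) : ℝ) = (I : ℝ) := by
      have : (((b + 1 - a).toNat : ℕ) : ℤ) = I := by omega
      exact_mod_cast this
    rw [e]
  have h2 : ∑ n ∈ Finset.Icc a b, |hZ n| ≤ 11 * I := by
    have h3 : ∑ n ∈ Finset.Icc a b, |hZ n| ≤ ∑ n ∈ Finset.Icc (1 : ℤ) b.toNat, |hZ n| := by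
      have h4 : ∑ n ∈ Finset.Icc a b, |hZ n| = ∑ n ∈ (Finset.Icc a b).filter (fun n => 1 ≤ n), |hZ n| := by
        symm
        apply Finset.sum_filter_of_ne
        intro n _ hne
        by_contra hcon
        apply hne
        rw [hZ, if_neg hcon, abs_zero]
      rw [h4]
      apply Finset.sum_le_sum_of_subset_of_nonneg
      · intro n hn
        rw [Finset.mem_filter, Finset.mem_Icc] at hn
        rw [Finset.mem_Icc]; omega
      · intro _ _ _; exact abs_nonneg _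
    have h5 := sum_abs_hZ b.toNat
    have h6 : 2 * ((b.toNat : ℕ) : ℤ) ≤ 11 * I := by
      have := abs_le.1 h10
      omega
    linarith
  have h2' : ((∑ n ∈ Finset.Icc a b, |hZ n| : ℤ) : ℝ) ≤ 11 * (I : ℝ) := by exact_mod_cast h2
  have : 0 < ε * (I : ℝ) := mul_pos hε hIpos'
  calc ∑ n ∈ Finset.Icc a b, ‖wt n‖ ≤ (I : ℝ) + 11 * I := h1.trans (by linarith)
    _ ≤ (12 + ε) * I := by linarith

/-! Fourier condition -/

lemma e_add (x y : ℝ) : e (x + y) = e x * e y := by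
  unfold e; rw [← Complex.exp_add]; congr 1; push_cast; ring

lemma norm_e (x : ℝ) : ‖e x‖ = 1 := by
  unfold e
  have : 2 * (Real.pi : ℂ) * Complex.I * (x : ℂ) = ((2 * Real.pi * x : ℝ) : ℂ) * Complex.I := by
    push_cast; ring
  rw [this, Complex.norm_exp_ofReal_mul_I]

/-- exponential sum. -/
noncomputable def FT (L : ℕ) (F : ℤ → ℤ) (θ : ℝ) : ℂ := ∑ n ∈ range L, (F (n : ℤ) : ℂ) * e ((n : ℝ) * θ)

lemma four_terms (z : ℂ) (hz : ‖z‖ = 1) : ‖1 + z + z ^ 2 - z ^ 3‖ ≤ 3 := by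
  have h1 : 1 + z + z ^ 2 - z ^ 3 = (1 + z) + z ^ 2 * (1 - z) := by ring
  have h2 : ‖(1 + z) + z ^ 2 * (1 - z)‖ ≤ ‖1 + z‖ + ‖1 - z‖ := by
    refine (norm_add_le _ _).trans ?_
    rw [norm_mul, norm_pow, hz, one_pow, one_mul]
  have h3 : ‖1 + z‖ ^ 2 + ‖1 - z‖ ^ 2 = 4 := by
    have := parallelogram_law_with_norm ℝ (1 : ℂ) z
    rw [norm_one, hz] at this
    nlinarith [this]
  rw [h1]
  refine h2.trans ?_
  nlinarith [sq_nonneg (‖1 + z‖ - ‖1 - z‖), norm_nonneg (1 + z), norm_nonneg (1 - z)]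

lemma FT_eta (θ : ℝ) : ‖FT 64 etaZ θ‖ ≤ 62 := by
  unfold FT
  have h1 : ∑ n ∈ range 64, (etaZ (n : ℤ) : ℂ) * e ((n : ℝ) * θ)
      = (∑ n ∈ range 4, (etaZ (n : ℤ) : ℂ) * e ((n : ℝ) * θ))
        + ∑ n ∈ range 60, (etaZ ((4 + n : ℕ) : ℤ) : ℂ) * e (((4 + n : ℕ) : ℝ) * θ) := by
    rw [show (64 : ℕ) = 4 + 60 by norm_num, Finset.sum_range_add]
  rw [h1]
  refine (norm_add_le _ _).trans ?_
  have h2 : ‖∑ n ∈ range 4, (etaZ (n : ℤ) : ℂ) * e ((n : ℝ) * θ)‖ ≤ 6 := by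
    have e0 : etaZ 0 = 2 := by decide
    have e1 : etaZ 1 = 2 := by decide
    have e2 : etaZ 2 = 2 := by decide
    have e3 : etaZ 3 = -2 := by decide
    have z0 : e ((0 : ℝ) * θ) = 1 := by unfold e; simp
    have z2 : e ((2 : ℝ) * θ) = e θ ^ 2 := by
      rw [show (2 : ℝ) * θ = θ + θ by ring, e_add]; ring
    have z3 : e ((3 : ℝ) * θ) = e θ ^ 3 := by
      rw [show (3 : ℝ) * θ = θ + θ + θ by ring, e_add, e_add]; ring
    have hs : ∑ n ∈ range 4, (etaZ (n : ℤ) : ℂ) * e ((n : ℝ) * θ)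
        = 2 * (1 + e θ + e θ ^ 2 - e θ ^ 3) := by
      simp only [Finset.sum_range_succ, Finset.sum_range_zero, Nat.cast_zero, Nat.cast_one,
        Nat.cast_ofNat, e0, e1, e2, e3, z0, z2, z3, one_mul]
      push_cast
      ring
    rw [hs, norm_mul]
    have := four_terms (e θ) (norm_e θ)
    have h2 : ‖(2 : ℂ)‖ = 2 := by simp
    rw [h2]; linarith
  have h3 : ‖∑ n ∈ range 60, (etaZ ((4 + n : ℕ) : ℤ) : ℂ) * e (((4 + n : ℕ) : ℝ) * θ)‖ ≤ 56 := by
    refine (norm_sum_le _ _).trans ?_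
    have h4 : ∑ n ∈ range 60, |etaZ ((4 + n : ℕ) : ℤ)| = 56 := by decide +kernel
    have h5 : ∑ n ∈ range 60, ‖(etaZ ((4 + n : ℕ) : ℤ) : ℂ) * e (((4 + n : ℕ) : ℝ) * θ)‖
        = ((∑ n ∈ range 60, |etaZ ((4 + n : ℕ) : ℤ)| : ℤ) : ℝ) := by
      push_cast
      refine Finset.sum_congr rfl fun n _ => ?_
      rw [norm_mul, norm_e, mul_one, Complex.norm_intCast]
    rw [h5, h4]; norm_num
  linarith

lemma FT_HZ (k : ℕ) (θ : ℝ) : ‖FT (64 ^ k) (HZ k) θ‖ ≤ 62 ^ k := by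
  induction k generalizing θ with
  | zero => simp [FT, HZ, e]
  | succ k ih =>
    have h1 : FT (64 ^ (k + 1)) (HZ (k + 1)) θ = FT 64 etaZ θ * FT (64 ^ k) (HZ k) (64 * θ) := by
      unfold FT
      rw [pow_succ, mul_comm (64 ^ k) 64, sum_range_64, Finset.sum_mul_sum, Finset.sum_comm]
      refine Finset.sum_congr rfl fun d hd => Finset.sum_congr rfl fun a _ => ?_
      rw [Finset.mem_range] at hd
      have e1 : HZ (k + 1) ((64 * a + d : ℕ) : ℤ) = etaZ d * HZ k a := by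
        push_cast
        exact HZ_step k a d (by omega) (by omega)
      have e2 : e (((64 * a + d : ℕ) : ℝ) * θ) = e ((d : ℝ) * θ) * e ((a : ℝ) * (64 * θ)) := by
        rw [← e_add]; congr 1; push_cast; ring
      rw [e1, e2]; push_cast; ring
    rw [h1, norm_mul, pow_succ, mul_comm]
    exact mul_le_mul (ih _) (FT_eta θ) (norm_nonneg _) (by positivity)

lemma FT_extend (L L' : ℕ) (hL : L ≤ L') (F : ℤ → ℤ) (h1 : ∀ z, (L : ℤ) ≤ z → F z = 0) (θ : ℝ) :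
    FT L' F θ = FT L F θ := by
  unfold FT
  symm
  apply Finset.sum_subset (Finset.range_subset_range.2 hL)
  intro n _ hn
  rw [Finset.mem_range, not_lt] at hn
  rw [h1 _ (by exact_mod_cast hn)]; simp

lemma FT_shift (L c : ℕ) (F : ℤ → ℤ) (h0 : ∀ z < 0, F z = 0) (θ : ℝ) :
    FT (c + L) (fun z => F (z - (c : ℤ))) θ = e ((c : ℝ) * θ) * FT L F θ := by
  unfold FT
  rw [Finset.sum_range_add]
  have h1 : ∑ n ∈ range c, ((F ((n : ℤ) - (c : ℤ)) : ℤ) : ℂ) * e ((n : ℝ) * θ) = 0 := by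
    apply Finset.sum_eq_zero
    intro n hn
    rw [Finset.mem_range] at hn
    rw [h0 _ (by omega)]; simp
  rw [h1, zero_add, Finset.mul_sum]
  refine Finset.sum_congr rfl fun n _ => ?_
  have e1 : (((c + n : ℕ) : ℤ) - (c : ℤ)) = n := by push_cast; ring
  have e2 : e (((c + n : ℕ) : ℝ) * θ) = e ((c : ℝ) * θ) * e ((n : ℝ) * θ) := by
    rw [← e_add]; congr 1; push_cast; ring
  beta_reduce
  rw [e1, e2]; ring

lemma norm_FT_shift (L' L c : ℕ) (hL : c + L ≤ L') (F : ℤ → ℤ) (h0 : ∀ z < 0, F z = 0)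
    (h1 : ∀ z, (L : ℤ) ≤ z → F z = 0) (θ : ℝ) :
    ‖FT L' (fun z => F (z - (c : ℤ))) θ‖ = ‖FT L F θ‖ := by
  rw [FT_extend (c + L) L' hL _ (by intro z hz; apply h1; push_cast at hz; omega), FT_shift L c F h0,
    norm_mul, norm_e, one_mul]

lemma FT_lin (L : ℕ) (s : Finset ℕ) (c : ℕ → ℤ) (F : ℕ → ℤ → ℤ) (c' : ℤ) (F' : ℤ → ℤ) (θ : ℝ) :
    ‖FT L (fun z => (∑ d ∈ s, c d * F d z) + c' * F' z) θ‖
      ≤ (∑ d ∈ s, |(c d : ℝ)| * ‖FT L (F d) θ‖) + |(c' : ℝ)| * ‖FT L F' θ‖ := by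
  have h1 : FT L (fun z => (∑ d ∈ s, c d * F d z) + c' * F' z) θ
      = (∑ d ∈ s, (c d : ℂ) * FT L (F d) θ) + (c' : ℂ) * FT L F' θ := by
    unfold FT
    simp only [Finset.mul_sum]
    rw [Finset.sum_comm, ← Finset.sum_add_distrib]
    refine Finset.sum_congr rfl fun n _ => ?_
    push_cast
    rw [add_mul, Finset.sum_mul]
    congr 1
    · refine Finset.sum_congr rfl fun d _ => ?_
      ring
    · ring
  rw [h1]
  refine (norm_add_le _ _).trans (add_le_add ?_ ?_)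
  · refine (norm_sum_le _ _).trans (Finset.sum_le_sum fun d _ => ?_)
    rw [norm_mul, Complex.norm_intCast]
  · rw [norm_mul, Complex.norm_intCast]

lemma FT_PZ (j : ℕ) (R : ℤ) (hR : 0 ≤ R) (θ : ℝ) : ‖FT (64 ^ j) (PZ j R) θ‖ ≤ 2 * 62 ^ j := by
  induction j generalizing R with
  | zero =>
    unfold FT
    simp only [pow_zero, Finset.range_one, Finset.sum_singleton, mul_one]
    rw [norm_mul, norm_e, mul_one, Complex.norm_intCast]
    unfold PZ
    split_ifs <;> simp [HZ]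
  | succ j ih =>
    by_cases hbig : 64 ^ (j + 1) ≤ R
    · rw [PZ_big _ _ hbig]
      refine (FT_HZ (j + 1) θ).trans ?_
      have : (0 : ℝ) ≤ 62 ^ (j + 1) := by positivity
      linarith
    push Not at hbig
    have hp : (0 : ℤ) < 64 ^ j := by positivity
    obtain ⟨t, R', hRt, hR0', hR1', ht⟩ : ∃ (t : ℕ) (R' : ℤ), R = 64 ^ j * t + R' ∧ 0 ≤ R' ∧
        R' < 64 ^ j ∧ t < 64 := by
      have hdiv : 0 ≤ R / 64 ^ j := Int.ediv_nonneg hR hp.le
      refine ⟨(R / 64 ^ j).toNat, R % 64 ^ j, ?_, Int.emod_nonneg _ hp.ne', Int.emod_lt_of_pos _ hp,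
        ?_⟩
      · rw [Int.toNat_of_nonneg hdiv]
        have := Int.emod_add_mul_ediv R (64 ^ j)
        linarith
      · have : R / 64 ^ j < 64 := by
          apply Int.ediv_lt_of_lt_mul hp
          rw [pow_succ] at hbig; linarith
        omega
    have hfun : PZ (j + 1) R = fun z => (∑ d ∈ range t, etaZ d * (fun z => HZ j (z - ((64 ^ j * d : ℕ) : ℤ))) z)
        + etaZ t * (fun z => PZ j R' (z - ((64 ^ j * t : ℕ) : ℤ))) z := by
      funext z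
      rw [hRt]
      exact PZ_succ j t ht R' hR0' hR1' z
    rw [hfun]
    refine (FT_lin (64 ^ (j + 1)) (range t) (fun d => etaZ d) (fun d z => HZ j (z - ((64 ^ j * d : ℕ) : ℤ)))
      (etaZ t) (fun z => PZ j R' (z - ((64 ^ j * t : ℕ) : ℤ))) θ).trans ?_
    have hroom : ∀ d < 64, 64 ^ j * d + 64 ^ j ≤ 64 ^ (j + 1) := by
      intro d hd
      have : 64 ^ j * d ≤ 64 ^ j * 63 := Nat.mul_le_mul_left _ (by omega)
      have h2 : 64 ^ (j + 1) = 64 * 64 ^ j := by rw [pow_succ]; ring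
      omega
    have hA : ∀ d ∈ range t, |((etaZ (d : ℤ) : ℤ) : ℝ)| * ‖FT (64 ^ (j + 1)) (fun z => HZ j (z - ((64 ^ j * d : ℕ) : ℤ))) θ‖
        ≤ |((etaZ (d : ℤ) : ℤ) : ℝ)| * 62 ^ j := by
      intro d hd
      apply mul_le_mul_of_nonneg_left _ (abs_nonneg _)
      rw [norm_FT_shift (64 ^ (j + 1)) (64 ^ j) (64 ^ j * d)
        (hroom d (by have := Finset.mem_range.1 hd; omega))
        (HZ j) (fun z hz => HZ_neg j z hz) (fun z hz => HZ_ge j z (by exact_mod_cast hz))]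
      exact FT_HZ j θ
    have hB : ‖FT (64 ^ (j + 1)) (fun z => PZ j R' (z - ((64 ^ j * t : ℕ) : ℤ))) θ‖ ≤ 2 * 62 ^ j := by
      rw [norm_FT_shift (64 ^ (j + 1)) (64 ^ j) (64 ^ j * t) (hroom t ht)
        (PZ j R') (fun z hz => PZ_neg j R' z hz) (fun z hz => PZ_ge j R' z (by exact_mod_cast hz))]
      exact ih R' hR0'
    have hC : |((etaZ (t : ℤ) : ℤ) : ℝ)| ≤ 2 := by
      rw [← Int.cast_abs]
      exact_mod_cast etaZ_abs_le t
    have hD : ∑ d ∈ range t, |((etaZ (d : ℤ) : ℤ) : ℝ)| ≤ 64 := by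
      have := sum_eta_abs t ht.le
      have h2 : ((∑ d ∈ range t, |etaZ (d : ℤ)| : ℤ) : ℝ) ≤ 64 := by exact_mod_cast this
      simpa using h2
    have hqj : (0 : ℝ) < 62 ^ j := by positivity
    calc (∑ d ∈ range t, |((etaZ (d : ℤ) : ℤ) : ℝ)| * ‖FT (64 ^ (j + 1)) (fun z => HZ j (z - ((64 ^ j * d : ℕ) : ℤ))) θ‖)
          + |((etaZ (t : ℤ) : ℤ) : ℝ)| * ‖FT (64 ^ (j + 1)) (fun z => PZ j R' (z - ((64 ^ j * t : ℕ) : ℤ))) θ‖
        ≤ (∑ d ∈ range t, |((etaZ (d : ℤ) : ℤ) : ℝ)| * 62 ^ j) + 2 * (2 * 62 ^ j) := by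
          refine add_le_add (Finset.sum_le_sum hA) ?_
          exact mul_le_mul hC hB (norm_nonneg _) (by norm_num)
      _ = (∑ d ∈ range t, |((etaZ (d : ℤ) : ℤ) : ℝ)|) * 62 ^ j + 4 * 62 ^ j := by
          rw [Finset.sum_mul]; ring
      _ ≤ 64 * 62 ^ j + 4 * 62 ^ j := by
          have := mul_le_mul_of_nonneg_right hD hqj.le
          linarith
      _ ≤ 2 * 62 ^ (j + 1) := by
          rw [pow_succ]; nlinarith

lemma geom62 (K : ℕ) : ∑ j ∈ range K, (62 : ℝ) ^ j ≤ 62 ^ K := by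
  induction K with
  | zero => simp
  | succ K ih =>
    rw [Finset.sum_range_succ, pow_succ]
    have : (0 : ℝ) < 62 ^ K := by positivity
    nlinarith

lemma FT_trunc (K N : ℕ) (h1 : 64 ^ K ≤ N) (h2 : N < 64 ^ (K + 1)) (θ : ℝ) :
    ‖FT (64 ^ (K + 1)) (truncZ N hZ) θ‖ ≤ 3 * 62 ^ K := by
  rw [truncZ_hZ K N h1 h2]
  refine (FT_lin (64 ^ (K + 1)) (range K) (fun _ => (1 : ℤ)) (fun j z => HZ j (z - ((64 ^ j : ℕ) : ℤ)))
    1 (fun z => PZ K (N + 1 - 64 ^ K) (z - ((64 ^ K : ℕ) : ℤ))) θ).trans ?_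
  have hpow : ∀ j ≤ K, 64 ^ j ≤ 64 ^ K := fun j hj => Nat.pow_le_pow_right (by norm_num) hj
  have hM' : 64 ^ (K + 1) = 64 * 64 ^ K := by rw [pow_succ]; ring
  have hA : ∀ j ∈ range K, |(((fun _ => (1 : ℤ)) j : ℤ) : ℝ)| *
      ‖FT (64 ^ (K + 1)) ((fun j z => HZ j (z - ((64 ^ j : ℕ) : ℤ))) j) θ‖ ≤ 62 ^ j := by
    intro j hj
    have hj' := hpow j (Finset.mem_range.1 hj).le
    simp only [Int.cast_one, abs_one, one_mul]
    rw [norm_FT_shift (64 ^ (K + 1)) (64 ^ j) (64 ^ j) (by omega) (HZ j) (fun z hz => HZ_neg j z hz)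
      (fun z hz => HZ_ge j z (by exact_mod_cast hz))]
    exact FT_HZ j θ
  have hB : |((1 : ℤ) : ℝ)| * ‖FT (64 ^ (K + 1)) (fun z => PZ K (N + 1 - 64 ^ K) (z - ((64 ^ K : ℕ) : ℤ))) θ‖
      ≤ 2 * 62 ^ K := by
    simp only [Int.cast_one, abs_one, one_mul]
    rw [norm_FT_shift (64 ^ (K + 1)) (64 ^ K) (64 ^ K) (by omega) (PZ K (N + 1 - 64 ^ K))
      (fun z hz => PZ_neg K _ z hz) (fun z hz => PZ_ge K _ z (by exact_mod_cast hz))]
    have h1' : (64 : ℤ) ^ K ≤ N := by exact_mod_cast h1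
    exact FT_PZ K _ (by omega) θ
  calc _ ≤ (∑ j ∈ range K, (62 : ℝ) ^ j) + 2 * 62 ^ K := add_le_add (Finset.sum_le_sum hA) hB
    _ ≤ 62 ^ K + 2 * 62 ^ K := by have := geom62 K; linarith
    _ = 3 * 62 ^ K := by ring

lemma fourier_h : FourierApprox wt Sc Ml := by
  -- c = log(64/62)/log 64
  set c : ℝ := Real.log (64 / 62) / Real.log 64 with hc
  have hlog64 : 0 < Real.log 64 := Real.log_pos (by norm_num)
  have hcpos : 0 < c := div_pos (Real.log_pos (by norm_num)) hlog64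
  refine ⟨c, 3 * (64 / 62), hcpos, ?_⟩
  filter_upwards [eventually_ge_atTop 1] with N hN β
  set K := Nat.log 64 N with hK
  have h1 : 64 ^ K ≤ N := Nat.pow_log_le_self 64 (by omega)
  have h2 : N < 64 ^ (K + 1) := Nat.lt_pow_succ_log_self (by norm_num) N
  have hNpos : (0 : ℝ) < N := by exact_mod_cast hN
  have hsum : ∑ n ∈ Finset.Icc 1 N, (wt (n : ℤ) - dyadicSum Sc (Ml N) (n : ℤ)) * e (-((n : ℝ) * β))
      = FT (64 ^ (K + 1)) (truncZ N hZ) (-β) := by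
    unfold FT
    have hsub : Finset.Icc 1 N ⊆ range (64 ^ (K + 1)) := by
      intro n hn; rw [Finset.mem_Icc] at hn; rw [Finset.mem_range]; omega
    rw [← Finset.sum_subset hsub]
    · refine Finset.sum_congr rfl fun n hn => ?_
      rw [Finset.mem_Icc] at hn
      rw [Ml, dyadicSum_one, wt, truncZ, if_pos (by omega)]
      have : -((n : ℝ) * β) = (n : ℝ) * (-β) := by ring
      rw [this]; ring
    · intro n _ hn
      rw [Finset.mem_Icc] at hn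
      rw [truncZ, if_neg (by omega)]; simp
  rw [hsum, norm_mul]
  have h3 := FT_trunc K N h1 h2 (-β)
  have h4 : ‖(1 / (N : ℂ))‖ = 1 / (N : ℝ) := by simp
  rw [h4]
  have hNK : ((64 : ℝ) ^ K) ≤ N := by exact_mod_cast h1
  have h64K : (0 : ℝ) < 64 ^ K := by positivity
  have h5 : 1 / (N : ℝ) * ‖FT (64 ^ (K + 1)) (truncZ N hZ) (-β)‖ ≤ 3 * (62 / 64) ^ K := by
    calc 1 / (N : ℝ) * ‖FT (64 ^ (K + 1)) (truncZ N hZ) (-β)‖
        ≤ 1 / (64 ^ K) * (3 * 62 ^ K) := by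
          apply mul_le_mul _ h3 (norm_nonneg _) (by positivity)
          exact one_div_le_one_div_of_le h64K hNK
      _ = 3 * (62 / 64) ^ K := by rw [div_pow]; ring
  refine h5.trans ?_
  have hNc : (N : ℝ) ^ (-c) ≥ (62 / 64) ^ (K + 1) := by
    have h6 : (N : ℝ) ≤ 64 ^ (K + 1) := by exact_mod_cast h2.le
    have h7 : ((64 : ℝ) ^ (K + 1)) ^ (-c) ≤ (N : ℝ) ^ (-c) :=
      Real.rpow_le_rpow_of_nonpos hNpos h6 (by linarith)
    have h8 : ((64 : ℝ) ^ (K + 1)) ^ (-c) = (62 / 64) ^ (K + 1) := by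
      rw [← Real.rpow_natCast, ← Real.rpow_natCast, ← Real.rpow_mul (by norm_num),
        mul_comm, Real.rpow_mul (by norm_num)]
      congr 1
      rw [Real.rpow_def_of_pos (by norm_num), hc]
      have : Real.log 64 * -(Real.log (64 / 62) / Real.log 64) = Real.log (62 / 64) := by
        rw [show (62 / 64 : ℝ) = (64 / 62)⁻¹ by norm_num, Real.log_inv]
        field_simp
      rw [this, Real.exp_log (by norm_num)]
    rw [h8] at h7
    exact h7
  have h9 : (62 / 64 : ℝ) ^ (K + 1) = (62 / 64) ^ K * (62 / 64) := pow_succ _ _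
  rw [h9] at hNc
  have h10 : (0 : ℝ) < (62 / 64) ^ K := by positivity
  nlinarith

theorem admissible_wt : Admissible wt Sc Ml :=
  ⟨upper_h, coeff_h, Filter.Eventually.of_forall fun _ => le_rfl, level_h, approx_h⟩

end Pool.Agent.Lib.MP_365e45_an
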