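import Mathlib

/-!
The digit pattern, its cube sum, and the product formula for cube sums of
digit-product functions.
-/

set_option autoImplicit false

namespace Pool.Agent.Lib.MP_365e45_an

open Finset

/-- The pattern of values `±2` of length `32`. -/
def etaL : List ℤ := [2,2,2,-2,2,-2,-2,-2,-2,-2,-2,2,-2,-2,-2,2,2,-2,2,2,-2,2,-2,2,2,-2,-2,2,2,2,2,-2]

/-- The digit function: `±2` on `0 ≤ d < 32` and `0` elsewhere. -/
def etaZ (d : ℤ) : ℤ := if 0 ≤ d then etaL.getD d.toNat 0 else 0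

lemma etaZ_eq_zero {d : ℤ} (h : d < 0 ∨ 32 ≤ d) : etaZ d = 0 := by
  unfold etaZ
  rcases h with h | h
  · rw [if_neg (by omega)]
  · rw [if_pos (by omega)]
    apply List.getD_eq_default
    have : etaL.length = 32 := rfl
    rw [this]; omega

lemma etaZ_natAbs {d : ℕ} (h : d < 32) : (etaZ d).natAbs = 2 := by
  revert d
  decide

lemma etaZ_abs_le (d : ℤ) : |etaZ d| ≤ 2 := by
  by_cases h : d < 0 ∨ 32 ≤ d
  · rw [etaZ_eq_zero h]; norm_num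
  · push Not at h
    obtain ⟨n, rfl⟩ := Int.eq_ofNat_of_zero_le h.1
    have h2 : n < 32 := by exact_mod_cast h.2
    have := etaZ_natAbs h2
    rw [Int.abs_eq_natAbs]; omega

/-- The digit-product function with `k` base-`64` digits. -/
def HZ : ℕ → ℤ → ℤ
  | 0, z => if z = 0 then 1 else 0
  | k + 1, z => etaZ (z % 64) * HZ k (z / 64)

lemma HZ_step (k : ℕ) (a d : ℤ) (h1 : -32 ≤ d) (h2 : d < 64) :
    HZ (k + 1) (64 * a + d) = etaZ d * HZ k a := by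
  rw [HZ]
  by_cases hd : 0 ≤ d
  · have e1 : (64 * a + d) % 64 = d := by omega
    have e2 : (64 * a + d) / 64 = a := by omega
    rw [e1, e2]
  · have e1 : (64 * a + d) % 64 = 64 + d := by omega
    rw [e1, etaZ_eq_zero (d := 64 + d) (by omega), etaZ_eq_zero (d := d) (by omega)]
    simp

lemma HZ_neg (k : ℕ) (z : ℤ) (hz : z < 0) : HZ k z = 0 := by
  induction k generalizing z with
  | zero => rw [HZ, if_neg (by omega)]
  | succ k ih => rw [HZ, ih _ (by omega), mul_zero]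

lemma HZ_ge (k : ℕ) (z : ℤ) (hz : 64 ^ k ≤ z) : HZ k z = 0 := by
  induction k generalizing z with
  | zero => rw [HZ, if_neg (by simp at hz; omega)]
  | succ k ih =>
    rw [HZ, ih, mul_zero]
    rw [pow_succ] at hz
    omega

/-- Vertex form of a cube for integer functions. -/
def vertZ (F : ℤ → ℤ) (x y₁ y₂ y₃ : ℤ) : ℤ :=
  F x * F y₁ * (F y₂ * F (y₁ + y₂ - x)) *
    (F y₃ * F (y₁ + y₃ - x) * (F (y₂ + y₃ - x) * F (y₁ + y₂ + y₃ - 2 * x)))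

lemma vertZ_step (F' F : ℤ → ℤ)
    (hF : ∀ a d : ℤ, -32 ≤ d → d < 64 → F' (64 * a + d) = etaZ d * F a)
    (a a₁ a₂ a₃ d d₁ d₂ d₃ : ℤ) (h : 0 ≤ d) (h' : d < 64) (h1 : 0 ≤ d₁) (h1' : d₁ < 64)
    (h2 : 0 ≤ d₂) (h2' : d₂ < 64) (h3 : 0 ≤ d₃) (h3' : d₃ < 64) :
    vertZ F' (64 * a + d) (64 * a₁ + d₁) (64 * a₂ + d₂) (64 * a₃ + d₃)
      = vertZ etaZ d d₁ d₂ d₃ * vertZ F a a₁ a₂ a₃ := by
  unfold vertZ
  rw [hF a d (by omega) h', hF a₁ d₁ (by omega) h1', hF a₂ d₂ (by omega) h2',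
    hF a₃ d₃ (by omega) h3']
  by_cases c : 32 ≤ d
  · rw [etaZ_eq_zero (Or.inr c)]; ring
  by_cases c1 : 32 ≤ d₁
  · rw [etaZ_eq_zero (Or.inr c1)]; ring
  by_cases c2 : 32 ≤ d₂
  · rw [etaZ_eq_zero (Or.inr c2)]; ring
  by_cases c3 : 32 ≤ d₃
  · rw [etaZ_eq_zero (Or.inr c3)]; ring
  have e12 : 64 * a₁ + d₁ + (64 * a₂ + d₂) - (64 * a + d) = 64 * (a₁ + a₂ - a) + (d₁ + d₂ - d) := by
    ring
  have e13 : 64 * a₁ + d₁ + (64 * a₃ + d₃) - (64 * a + d) = 64 * (a₁ + a₃ - a) + (d₁ + d₃ - d) := by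
    ring
  have e23 : 64 * a₂ + d₂ + (64 * a₃ + d₃) - (64 * a + d) = 64 * (a₂ + a₃ - a) + (d₂ + d₃ - d) := by
    ring
  have e123 : 64 * a₁ + d₁ + (64 * a₂ + d₂) + (64 * a₃ + d₃) - 2 * (64 * a + d)
      = 64 * (a₁ + a₂ + a₃ - 2 * a) + (d₁ + d₂ + d₃ - 2 * d) := by
    ring
  rw [e12, e13, e23, e123, hF _ _ (by omega) (by omega), hF _ _ (by omega) (by omega),
    hF _ _ (by omega) (by omega)]
  by_cases c12 : d₁ + d₂ - d < 0 ∨ 32 ≤ d₁ + d₂ - d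
  · rw [etaZ_eq_zero c12]; ring
  push Not at c12
  rw [hF _ _ (by omega) (by omega)]
  ring

/-- The cube sum over `[0,L)`. -/
def V (L : ℕ) (F : ℤ → ℤ) : ℤ :=
  ∑ x ∈ range L, ∑ y₁ ∈ range L, ∑ y₂ ∈ range L, ∑ y₃ ∈ range L, vertZ F x y₁ y₂ y₃

lemma sum_range_64 {M : Type*} [AddCommMonoid M] (L : ℕ) (f : ℕ → M) :
    ∑ x ∈ range (64 * L), f x = ∑ a ∈ range L, ∑ d ∈ range 64, f (64 * a + d) := by
  induction L with
  | zero => simp
  | succ L ih =>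
    rw [Finset.sum_range_succ, ← ih, mul_add, mul_one, Finset.sum_range_add]

lemma V_step (L : ℕ) (F' F : ℤ → ℤ)
    (hF : ∀ a d : ℤ, -32 ≤ d → d < 64 → F' (64 * a + d) = etaZ d * F a) :
    V (64 * L) F' = V 64 etaZ * V L F := by
  unfold V
  simp only [sum_range_64]
  have h1 : ∀ a ∈ range L, ∀ d ∈ range 64, ∀ a₁ ∈ range L, ∀ d₁ ∈ range 64, ∀ a₂ ∈ range L,
      ∀ d₂ ∈ range 64, ∀ a₃ ∈ range L, ∀ d₃ ∈ range 64,
      vertZ F' ((64 * a + d : ℕ) : ℤ) ((64 * a₁ + d₁ : ℕ) : ℤ) ((64 * a₂ + d₂ : ℕ) : ℤ)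
        ((64 * a₃ + d₃ : ℕ) : ℤ) = vertZ etaZ d d₁ d₂ d₃ * vertZ F a a₁ a₂ a₃ := by
    intro a _ d hd a₁ _ d₁ hd₁ a₂ _ d₂ hd₂ a₃ _ d₃ hd₃
    simp only [Finset.mem_range] at hd hd₁ hd₂ hd₃
    push_cast
    apply vertZ_step F' F hF <;> omega
  calc ∑ a ∈ range L, ∑ d ∈ range 64, ∑ a₁ ∈ range L, ∑ d₁ ∈ range 64, ∑ a₂ ∈ range L,
        ∑ d₂ ∈ range 64, ∑ a₃ ∈ range L, ∑ d₃ ∈ range 64,
        vertZ F' ((64 * a + d : ℕ) : ℤ) ((64 * a₁ + d₁ : ℕ) : ℤ) ((64 * a₂ + d₂ : ℕ) : ℤ)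
        ((64 * a₃ + d₃ : ℕ) : ℤ)
      = ∑ a ∈ range L, ∑ d ∈ range 64, ∑ a₁ ∈ range L, ∑ d₁ ∈ range 64, ∑ a₂ ∈ range L,
        ∑ d₂ ∈ range 64, ∑ a₃ ∈ range L, ∑ d₃ ∈ range 64,
          vertZ etaZ d d₁ d₂ d₃ * vertZ F a a₁ a₂ a₃ := by
        refine Finset.sum_congr rfl fun a ha => Finset.sum_congr rfl fun d hd =>
          Finset.sum_congr rfl fun a₁ ha₁ => Finset.sum_congr rfl fun d₁ hd₁ =>
          Finset.sum_congr rfl fun a₂ ha₂ => Finset.sum_congr rfl fun d₂ hd₂ =>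
          Finset.sum_congr rfl fun a₃ ha₃ => Finset.sum_congr rfl fun d₃ hd₃ => ?_
        exact h1 a ha d hd a₁ ha₁ d₁ hd₁ a₂ ha₂ d₂ hd₂ a₃ ha₃ d₃ hd₃
    _ = (∑ d ∈ range 64, ∑ d₁ ∈ range 64, ∑ d₂ ∈ range 64, ∑ d₃ ∈ range 64,
          vertZ etaZ d d₁ d₂ d₃) *
        ∑ a ∈ range L, ∑ a₁ ∈ range L, ∑ a₂ ∈ range L, ∑ a₃ ∈ range L, vertZ F a a₁ a₂ a₃ := by
        rw [Finset.sum_mul]
        simp only [Finset.sum_mul]
        simp only [Finset.mul_sum]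
        rw [Finset.sum_comm]
        refine Finset.sum_congr rfl fun d _ => ?_
        have s1 : ∀ a ∈ range L, (∑ a₁ ∈ range L, ∑ d₁ ∈ range 64, ∑ a₂ ∈ range L,
            ∑ d₂ ∈ range 64, ∑ a₃ ∈ range L, ∑ d₃ ∈ range 64,
            vertZ etaZ d d₁ d₂ d₃ * vertZ F a a₁ a₂ a₃)
            = ∑ d₁ ∈ range 64, ∑ d₂ ∈ range 64, ∑ d₃ ∈ range 64, ∑ a₁ ∈ range L,
              ∑ a₂ ∈ range L, ∑ a₃ ∈ range L, vertZ etaZ d d₁ d₂ d₃ * vertZ F a a₁ a₂ a₃ := by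
          intro a _
          rw [Finset.sum_comm]
          refine Finset.sum_congr rfl fun d₁ _ => ?_
          have s2 : ∀ a₁ ∈ range L, (∑ a₂ ∈ range L,
            ∑ d₂ ∈ range 64, ∑ a₃ ∈ range L, ∑ d₃ ∈ range 64,
            vertZ etaZ d d₁ d₂ d₃ * vertZ F a a₁ a₂ a₃)
            = ∑ d₂ ∈ range 64, ∑ d₃ ∈ range 64,
              ∑ a₂ ∈ range L, ∑ a₃ ∈ range L, vertZ etaZ d d₁ d₂ d₃ * vertZ F a a₁ a₂ a₃ := by
            intro a₁ _
            rw [Finset.sum_comm]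
            refine Finset.sum_congr rfl fun d₂ _ => ?_
            have s3 : ∀ a₂ ∈ range L, (∑ a₃ ∈ range L, ∑ d₃ ∈ range 64,
              vertZ etaZ d d₁ d₂ d₃ * vertZ F a a₁ a₂ a₃)
              = ∑ d₃ ∈ range 64,
                ∑ a₃ ∈ range L, vertZ etaZ d d₁ d₂ d₃ * vertZ F a a₁ a₂ a₃ := by
              intro a₂ _
              rw [Finset.sum_comm]
            rw [Finset.sum_congr rfl s3, Finset.sum_comm]
          rw [Finset.sum_congr rfl s2, Finset.sum_comm]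
          refine Finset.sum_congr rfl fun d₂ _ => ?_
          rw [Finset.sum_comm]
        rw [Finset.sum_congr rfl s1, Finset.sum_comm]
        refine Finset.sum_congr rfl fun d₁ _ => ?_
        rw [Finset.sum_comm]
        refine Finset.sum_congr rfl fun d₂ _ => ?_
        rw [Finset.sum_comm]

lemma V_HZ (k : ℕ) : V (64 ^ k) (HZ k) = (V 64 etaZ) ^ k := by
  induction k with
  | zero =>
    simp [V, vertZ, HZ]
  | succ k ih =>
    rw [pow_succ, mul_comm, V_step (64 ^ k) (HZ (k + 1)) (HZ k) (fun a d h1 h2 => HZ_step k a d h1 h2),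
      ih, pow_succ, mul_comm]

/-- the diagonal product. -/
def DD (a b x : ℤ) : ℤ := etaZ x * etaZ (x + a) * (etaZ (x + b) * etaZ (x + a + b))

/-- summation by recursion, for kernel evaluation. -/
def sm (f : ℕ → ℤ) : ℕ → ℤ
  | 0 => 0
  | n + 1 => sm f n + f n

lemma sm_eq (f : ℕ → ℤ) (n : ℕ) : sm f n = ∑ i ∈ range n, f i := by
  induction n with
  | zero => simp [sm]
  | succ n ih => rw [sm, ih, Finset.sum_range_succ]

lemma sum_window (x : ℕ) (hx : x < 32) (φ : ℤ → ℤ) (hφ : ∀ a : ℤ, (x : ℤ) + a < 0 ∨ 32 ≤ (x : ℤ) + a → φ a = 0) :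
    ∑ y ∈ range 64, φ ((y : ℤ) - x) = ∑ a ∈ range 63, φ ((a : ℤ) - 31) := by
  have h1 : ∑ y ∈ range 64, φ ((y : ℤ) - x) = ∑ y ∈ range 32, φ ((y : ℤ) - x) := by
    symm
    apply Finset.sum_subset (Finset.range_subset_range.2 (by norm_num))
    intro y _ hy
    apply hφ
    simp only [Finset.mem_range, not_lt] at hy
    right; omega
  have h2 : ∑ a ∈ range 63, φ ((a : ℤ) - 31) = ∑ a ∈ Finset.Ico (31 - x) (63 - x), φ ((a : ℤ) - 31) := by
    symm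
    apply Finset.sum_subset
    · intro a ha
      simp only [Finset.mem_Ico] at ha
      simp only [Finset.mem_range]; omega
    · intro a ha hna
      simp only [Finset.mem_range] at ha
      simp only [Finset.mem_Ico, not_and, not_lt] at hna
      apply hφ
      omega
  rw [h1, h2, Finset.sum_Ico_eq_sum_range]
  have e : 63 - x - (31 - x) = 32 := by omega
  rw [e]
  refine Finset.sum_congr rfl fun y _ => ?_
  congr 1
  have : x ≤ 31 := by omega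
  push_cast [Nat.cast_sub this]
  ring

lemma V_eta_eq : V 64 etaZ = ∑ a ∈ range 63, ∑ b ∈ range 63,
    (∑ x ∈ range 32, DD ((a : ℤ) - 31) ((b : ℤ) - 31) x) ^ 2 := by
  unfold V
  have h0 : ∀ x ∈ range 64, x ∉ range 32 → (∑ y₁ ∈ range 64, ∑ y₂ ∈ range 64, ∑ y₃ ∈ range 64,
      vertZ etaZ (x : ℤ) y₁ y₂ y₃) = 0 := by
    intro x _ hx
    simp only [Finset.mem_range, not_lt] at hx
    have : etaZ (x : ℤ) = 0 := etaZ_eq_zero (Or.inr (by exact_mod_cast hx))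
    simp [vertZ, this]
  rw [← Finset.sum_subset (Finset.range_subset_range.2 (by norm_num : 32 ≤ 64)) h0]
  have h1 : ∀ x ∈ range 32, (∑ y₁ ∈ range 64, ∑ y₂ ∈ range 64, ∑ y₃ ∈ range 64,
      vertZ etaZ (x : ℤ) y₁ y₂ y₃) = ∑ a ∈ range 63, ∑ b ∈ range 63, ∑ y ∈ range 32,
        DD ((a : ℤ) - 31) ((b : ℤ) - 31) x * DD ((a : ℤ) - 31) ((b : ℤ) - 31) y := by
    intro x hx
    have hx' : x < 32 := Finset.mem_range.1 hx
    have e1 : ∀ y₁ y₂ y₃ : ℤ, vertZ etaZ (x : ℤ) y₁ y₂ y₃ = DD (y₁ - x) (y₂ - x) x *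
        DD (y₁ - x) (y₂ - x) y₃ := by
      intro y₁ y₂ y₃
      unfold vertZ DD
      have f1 : (x : ℤ) + (y₁ - x) = y₁ := by ring
      have f2 : (x : ℤ) + (y₂ - x) = y₂ := by ring
      have f3 : y₁ + (y₂ - (x : ℤ)) = y₁ + y₂ - x := by ring
      have f4 : y₃ + (y₁ - (x : ℤ)) = y₁ + y₃ - x := by ring
      have f5 : y₃ + (y₂ - (x : ℤ)) = y₂ + y₃ - x := by ring
      have f6 : y₁ + y₃ - (x : ℤ) + (y₂ - x) = y₁ + y₂ + y₃ - 2 * x := by ring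
      rw [f1, f2, f3, f4, f5, f6]
    simp only [e1]
    have e2 : ∀ y₁ : ℤ, ∀ y₂ : ℤ, ∑ y₃ ∈ range 64, DD (y₁ - x) (y₂ - x) x *
        DD (y₁ - x) (y₂ - x) (y₃ : ℤ) = ∑ y₃ ∈ range 32, DD (y₁ - x) (y₂ - x) x *
        DD (y₁ - x) (y₂ - x) (y₃ : ℤ) := by
      intro y₁ y₂
      symm
      apply Finset.sum_subset (Finset.range_subset_range.2 (by norm_num))
      intro y _ hy
      simp only [Finset.mem_range, not_lt] at hy
      have : etaZ (y : ℤ) = 0 := etaZ_eq_zero (Or.inr (by exact_mod_cast hy))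
      simp [DD, this]
    simp only [e2]
    rw [← sum_window x hx' (fun a => ∑ b ∈ range 63, ∑ y ∈ range 32,
        DD a ((b : ℤ) - 31) x * DD a ((b : ℤ) - 31) y)]
    · refine Finset.sum_congr rfl fun y₁ _ => ?_
      rw [← sum_window x hx' (fun b => ∑ y ∈ range 32,
        DD ((y₁ : ℤ) - x) b x * DD ((y₁ : ℤ) - x) b y)]
      intro b hb
      have : etaZ ((x : ℤ) + b) = 0 := etaZ_eq_zero hb
      simp [DD, this]
    · intro a ha
      have : etaZ ((x : ℤ) + a) = 0 := etaZ_eq_zero ha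
      simp [DD, this]
  rw [Finset.sum_congr rfl h1, Finset.sum_comm]
  refine Finset.sum_congr rfl fun a _ => ?_
  rw [Finset.sum_comm]
  refine Finset.sum_congr rfl fun b _ => ?_
  rw [sq, Finset.sum_mul_sum]

lemma V_eta_eq' : V 64 etaZ = sm (fun a => sm (fun b => (sm (fun x => DD ((a : ℤ) - 31) ((b : ℤ) - 31) x) 32) ^ 2) 63) 63 := by
  rw [V_eta_eq]
  simp only [sm_eq]

set_option maxRecDepth 100000 in
lemma sm_bound : sm (fun a => sm (fun b => (sm (fun x => DD ((a : ℤ) - 31) ((b : ℤ) - 31) x) 32) ^ 2) 63) 63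
    ≤ 13205504 := by decide +kernel

lemma V_eta_le : V 64 etaZ ≤ 13205504 := by
  rw [V_eta_eq']; exact sm_bound

lemma V_eta_nonneg : 0 ≤ V 64 etaZ := by
  rw [V_eta_eq]
  exact Finset.sum_nonneg fun _ _ => Finset.sum_nonneg fun _ _ => sq_nonneg _

end Pool.Agent.Lib.MP_365e45_an
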