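import Pool.Agent.Lib.MP_365e45_an.Gowers
import Pool.Agent.Lib.MP_365e45_an.Digits

/-!
Bridging between functions on `ℤ` supported on short intervals and functions on `ZMod M`.
-/

set_option autoImplicit false

namespace Pool.Agent.Lib.MP_365e45_an

open Finset

/-- transport of an integer function to the cyclic group. -/
noncomputable def lift (M : ℕ) (F : ℤ → ℤ) : ZMod M → ℝ := fun x => (F (x.val : ℤ) : ℝ)

lemma sum_zmod (M : ℕ) [NeZero M] (φ : ZMod M → ℝ) :
    ∑ x, φ x = ∑ n ∈ range M, φ (n : ZMod M) := by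
  symm
  refine Finset.sum_bij' (fun n _ => (n : ZMod M)) (fun x _ => x.val) ?_ ?_ ?_ ?_ ?_
  · intro n _; exact Finset.mem_univ _
  · intro x _; exact Finset.mem_range.2 (ZMod.val_lt x)
  · intro n hn
    exact ZMod.val_natCast_of_lt (Finset.mem_range.1 hn)
  · intro x _
    exact ZMod.natCast_zmod_val x
  · intro n _; rfl

lemma sum_zmod_restrict (M L : ℕ) [NeZero M] (hL : L ≤ M) (φ : ZMod M → ℝ)
    (hφ : ∀ x : ZMod M, L ≤ x.val → φ x = 0) :
    ∑ x, φ x = ∑ n ∈ range L, φ (n : ZMod M) := by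
  rw [sum_zmod]
  symm
  apply Finset.sum_subset (Finset.range_subset_range.2 hL)
  intro n hn hnL
  apply hφ
  rw [ZMod.val_natCast_of_lt (Finset.mem_range.1 hn)]
  simpa using hnL

lemma lift_intCast (M L : ℕ) [NeZero M] (F : ℤ → ℤ) (h0 : ∀ z < 0, F z = 0)
    (h1 : ∀ z, (L : ℤ) ≤ z → F z = 0) (z : ℤ) (hz1 : (L : ℤ) - M ≤ z) (hz2 : z < M) :
    lift M F (z : ZMod M) = F z := by
  unfold lift
  have hv : (((z : ZMod M)).val : ℤ) = z % M := ZMod.val_intCast z
  rw [hv]
  by_cases hz : 0 ≤ z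
  · rw [Int.emod_eq_of_lt hz hz2]
  · push Not at hz
    have hM : (z % (M : ℤ)) = z + M := by
      have : (z + M) % (M : ℤ) = z + M := Int.emod_eq_of_lt (by omega) (by omega)
      rw [← this]; simp
    rw [hM, h0 z hz, h1 (z + M) (by omega)]

lemma S3_lift (M L : ℕ) [NeZero M] (hML : 4 * L ≤ M) (F : ℤ → ℤ) (h0 : ∀ z < 0, F z = 0)
    (h1 : ∀ z, (L : ℤ) ≤ z → F z = 0) : S3 (lift M F) = (V L F : ℝ) := by
  have hz : ∀ x : ZMod M, L ≤ x.val → lift M F x = 0 := by
    intro x hx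
    unfold lift
    rw [h1 _ (by exact_mod_cast hx)]; simp
  have hLM : L ≤ M := by omega
  rw [S3_eq_vert, sum_zmod_restrict M L hLM]
  · unfold V
    push_cast
    refine Finset.sum_congr rfl fun x hx => ?_
    rw [sum_zmod_restrict M L hLM]
    · refine Finset.sum_congr rfl fun y₁ hy₁ => ?_
      rw [sum_zmod_restrict M L hLM]
      · refine Finset.sum_congr rfl fun y₂ hy₂ => ?_
        rw [sum_zmod_restrict M L hLM]
        · refine Finset.sum_congr rfl fun y₃ hy₃ => ?_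
          rw [Finset.mem_range] at hx hy₁ hy₂ hy₃
          unfold vert vertZ
          have c0 : ∀ n : ℕ, n < L → lift M F (n : ZMod M) = F (n : ℤ) := by
            intro n hn
            have := lift_intCast M L F h0 h1 (n : ℤ) (by omega) (by omega)
            simpa using this
          have c1 : ∀ a b c : ℕ, a < L → b < L → c < L →
              lift M F ((a : ZMod M) + b - c) = F ((a : ℤ) + b - c) := by
            intro a b c ha hb hc
            have := lift_intCast M L F h0 h1 ((a : ℤ) + b - c) (by omega) (by omega)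
            simpa using this
          have c2 : lift M F ((y₁ : ZMod M) + y₂ + y₃ - 2 • (x : ZMod M))
              = F ((y₁ : ℤ) + y₂ + y₃ - 2 * x) := by
            have := lift_intCast M L F h0 h1 ((y₁ : ℤ) + y₂ + y₃ - 2 * x) (by omega) (by omega)
            rw [← this]; congr 1; push_cast; rw [nsmul_eq_mul]; push_cast; ring
          rw [c0 x hx, c0 y₁ hy₁, c0 y₂ hy₂, c0 y₃ hy₃, c1 y₁ y₂ x hy₁ hy₂ hx, c1 y₁ y₃ x hy₁ hy₃ hx,
            c1 y₂ y₃ x hy₂ hy₃ hx, c2]
          push_cast; ring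
        · intro y hy
          unfold vert; rw [hz y hy]; ring
      · intro y hy
        apply Finset.sum_eq_zero; intro y₃ _
        unfold vert; rw [hz y hy]; ring
    · intro y hy
      apply Finset.sum_eq_zero; intro y₂ _
      apply Finset.sum_eq_zero; intro y₃ _
      unfold vert; rw [hz y hy]; ring
  · intro y hy
    apply Finset.sum_eq_zero; intro y₁ _
    apply Finset.sum_eq_zero; intro y₂ _
    apply Finset.sum_eq_zero; intro y₃ _
    unfold vert; rw [hz y hy]; ring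

/-- shifting an integer function corresponds to a translation in the cyclic group. -/
lemma lift_shift (M L c : ℕ) [NeZero M] (hM : L + c ≤ M) (F : ℤ → ℤ) (h0 : ∀ z < 0, F z = 0)
    (h1 : ∀ z, (L : ℤ) ≤ z → F z = 0) :
    lift M (fun z => F (z - c)) = fun x => lift M F (x + (-(c : ZMod M))) := by
  funext x
  have h := lift_intCast M L F h0 h1 ((x.val : ℤ) - c)
    (by have := (ZMod.val_lt x); omega) (by have := (ZMod.val_lt x); omega)
  unfold lift at h ⊢
  rw [← h]
  congr 4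
  push_cast
  rw [ZMod.natCast_zmod_val]; ring

lemma N3_lift_shift (M L c : ℕ) [NeZero M] (hM : L + c ≤ M) (F : ℤ → ℤ) (h0 : ∀ z < 0, F z = 0)
    (h1 : ∀ z, (L : ℤ) ≤ z → F z = 0) :
    N3 (lift M (fun z => F (z - c))) = N3 (lift M F) := by
  rw [lift_shift M L c hM F h0 h1, N3_shift]

/-- the growth rate. -/
noncomputable def q0 : ℝ := 39 / 5

lemma V_eta_le_q : ((V 64 etaZ : ℤ) : ℝ) ≤ q0 ^ 8 := by
  have h : ((V 64 etaZ : ℤ) : ℝ) ≤ 13205504 := by exact_mod_cast V_eta_le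
  refine h.trans ?_
  unfold q0; norm_num

lemma N3_HZ (M k : ℕ) [NeZero M] (hM : 4 * 64 ^ k ≤ M) : N3 (lift M (HZ k)) ≤ q0 ^ k := by
  have h8 : N3 (lift M (HZ k)) ^ 8 ≤ (q0 ^ k) ^ 8 := by
    rw [N3_pow8, S3_lift M (64 ^ k) hM (HZ k) (fun z hz => HZ_neg k z hz)
      (fun z hz => HZ_ge k z (by exact_mod_cast hz)), V_HZ, ← pow_mul, mul_comm k 8, pow_mul]
    push_cast
    exact pow_le_pow_left₀ (by exact_mod_cast V_eta_nonneg) V_eta_le_q k
  exact (pow_le_pow_iff_left₀ (N3_nonneg _) (by unfold q0; positivity) (by norm_num)).1 h8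

/-- top digit recursion. -/
lemma HZ_top (j : ℕ) (d : ℤ) (z : ℤ) (hd : 0 ≤ d) (hd' : d < 64) (hz : 0 ≤ z) (hz' : z < 64 ^ j) :
    HZ (j + 1) (64 ^ j * d + z) = etaZ d * HZ j z := by
  induction j generalizing z with
  | zero =>
    have hz0 : z = 0 := by simp at hz'; omega
    subst hz0
    have e1 : d % 64 = d := by omega
    have e2 : d / 64 = 0 := by omega
    simp [HZ, e1, e2]
  | succ j ih =>
    rw [HZ]
    have hz1 : z / 64 < 64 ^ j := by rw [pow_succ] at hz'; omega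
    have hz0 : 0 ≤ z / 64 := by omega
    have e1 : (64 ^ (j + 1) * d + z) / 64 = 64 ^ j * d + z / 64 := by
      rw [pow_succ]
      have : (64 ^ j * 64 * d + z) = z + 64 * (64 ^ j * d) := by ring
      rw [this, Int.add_mul_ediv_left _ _ (by norm_num)]; ring
    have e2 : (64 ^ (j + 1) * d + z) % 64 = z % 64 := by
      rw [pow_succ]
      have : (64 ^ j * 64 * d + z) = z + 64 * (64 ^ j * d) := by ring
      rw [this, Int.add_mul_emod_self_left]
    rw [e1, e2, ih _ hz0 hz1]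
    rw [HZ]; ring

/-- truncated digit functions. -/
def PZ (j : ℕ) (R : ℤ) (z : ℤ) : ℤ := if z < R then HZ j z else 0

lemma PZ_neg (j : ℕ) (R z : ℤ) (hz : z < 0) : PZ j R z = 0 := by
  unfold PZ; split_ifs
  · exact HZ_neg j z hz
  · rfl

lemma PZ_ge (j : ℕ) (R z : ℤ) (hz : 64 ^ j ≤ z) : PZ j R z = 0 := by
  unfold PZ; split_ifs
  · exact HZ_ge j z hz
  · rfl

lemma PZ_big (j : ℕ) (R : ℤ) (hR : 64 ^ j ≤ R) : PZ j R = HZ j := by
  funext z
  unfold PZ
  split_ifs with h
  · rfl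
  · rw [HZ_ge j z (by omega)]

/-- decomposition of a truncated digit function into translates. -/
lemma PZ_succ (j t : ℕ) (ht : t < 64) (R' : ℤ) (hR0 : 0 ≤ R') (hR : R' < 64 ^ j) (z : ℤ) :
    PZ (j + 1) (64 ^ j * t + R') z
      = (∑ d ∈ range t, etaZ d * HZ j (z - ((64 ^ j * d : ℕ) : ℤ)))
        + etaZ t * PZ j R' (z - ((64 ^ j * t : ℕ) : ℤ)) := by
  by_cases hz : z < 0
  · rw [PZ_neg _ _ _ hz, PZ_neg]
    · rw [Finset.sum_eq_zero]
      · simp
      · intro d _
        rw [HZ_neg, mul_zero]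
        have : (0 : ℤ) ≤ ((64 ^ j * d : ℕ) : ℤ) := Int.natCast_nonneg _
        omega
    · have : (0 : ℤ) ≤ ((64 ^ j * t : ℕ) : ℤ) := Int.natCast_nonneg _
      omega
  push Not at hz
  by_cases hz2 : 64 ^ (j + 1) ≤ z
  · rw [PZ_ge _ _ _ hz2]
    rw [pow_succ] at hz2
    have hb : ∀ d : ℕ, d < 64 → (64 : ℤ) ^ j ≤ z - ((64 ^ j * d : ℕ) : ℤ) := by
      intro d hd
      push_cast
      have hp : (0 : ℤ) < 64 ^ j := by positivity
      have : (64 : ℤ) ^ j * d ≤ 64 ^ j * 63 := by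
        apply mul_le_mul_of_nonneg_left _ hp.le
        omega
      linarith
    rw [PZ_ge _ _ _ (hb t ht), Finset.sum_eq_zero]
    · simp
    · intro d hd
      rw [HZ_ge _ _ (hb d (by have := Finset.mem_range.1 hd; omega)), mul_zero]
  push Not at hz2
  -- write `z = 64^j * e + z'`
  have hp : (0 : ℤ) < 64 ^ j := by positivity
  obtain ⟨e, z', hze, hz0', hz1', he0, he1⟩ : ∃ (e : ℕ) (z' : ℤ), z = 64 ^ j * e + z' ∧ 0 ≤ z' ∧
      z' < 64 ^ j ∧ 0 ≤ (e : ℤ) ∧ e < 64 := by
    have hdiv : 0 ≤ z / 64 ^ j := Int.ediv_nonneg hz hp.le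
    refine ⟨(z / 64 ^ j).toNat, z % 64 ^ j, ?_, Int.emod_nonneg _ hp.ne', Int.emod_lt_of_pos _ hp,
      by positivity, ?_⟩
    · rw [Int.toNat_of_nonneg hdiv]
      have := Int.emod_add_mul_ediv z (64 ^ j)
      linarith
    · have : z / 64 ^ j < 64 := by
        apply Int.ediv_lt_of_lt_mul hp
        rw [pow_succ] at hz2; linarith
      omega
  subst hze
  have hterm : ∀ d : ℕ, d ≠ e → HZ j (64 ^ j * (e : ℤ) + z' - ((64 ^ j * d : ℕ) : ℤ)) = 0 := by
    intro d hd
    push_cast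
    rcases Nat.lt_or_gt_of_ne hd with h | h
    · apply HZ_ge
      have : (64 : ℤ) ^ j * ((d : ℤ) + 1) ≤ 64 ^ j * e := by
        apply mul_le_mul_of_nonneg_left _ hp.le
        omega
      linarith
    · apply HZ_neg
      have : (64 : ℤ) ^ j * ((e : ℤ) + 1) ≤ 64 ^ j * d := by
        apply mul_le_mul_of_nonneg_left _ hp.le
        omega
      linarith
  have hself : 64 ^ j * (e : ℤ) + z' - ((64 ^ j * e : ℕ) : ℤ) = z' := by push_cast; ring
  rcases lt_trichotomy e t with h | h | h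
  · -- e < t
    have h0 : (64 : ℤ) ^ j * ((e : ℤ) + 1) ≤ 64 ^ j * t := by
      apply mul_le_mul_of_nonneg_left _ hp.le
      omega
    have h1 : 64 ^ j * (e : ℤ) + z' < 64 ^ j * t + R' := by
      linarith
    rw [PZ, if_pos h1, HZ_top j e z' he0 (by exact_mod_cast he1) hz0' hz1']
    rw [Finset.sum_eq_single e]
    · rw [hself]
      have : PZ j R' (64 ^ j * (e : ℤ) + z' - ((64 ^ j * t : ℕ) : ℤ)) = 0 := by
        apply PZ_neg
        push_cast; linarith
      rw [this]; ring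
    · intro d _ hd; rw [hterm d hd, mul_zero]
    · intro hh; exact absurd (Finset.mem_range.2 h) hh
  · subst h
    rw [hself]
    rw [Finset.sum_eq_zero]
    · unfold PZ
      by_cases h2 : z' < R'
      · rw [if_pos (by linarith), if_pos h2, HZ_top j e z' he0 (by exact_mod_cast he1) hz0' hz1']
        ring
      · rw [if_neg (by linarith), if_neg h2]; ring
    · intro d hd
      rw [hterm d (by have := Finset.mem_range.1 hd; omega), mul_zero]
  · have h1 : 64 ^ j * (t : ℤ) + R' ≤ 64 ^ j * (e : ℤ) + z' := by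
      have : (64 : ℤ) ^ j * ((t : ℤ) + 1) ≤ 64 ^ j * e := by
        apply mul_le_mul_of_nonneg_left _ hp.le
        omega
      linarith
    rw [PZ, if_neg (by linarith)]
    rw [Finset.sum_eq_zero]
    · unfold PZ
      rw [if_neg]
      · ring
      · push_cast; linarith
    · intro d hd
      rw [hterm d (by have := Finset.mem_range.1 hd; omega), mul_zero]

lemma lift_sum_smul (M : ℕ) (s : Finset ℕ) (c : ℕ → ℤ) (F : ℕ → ℤ → ℤ) (c' : ℤ) (F' : ℤ → ℤ) :
    lift M (fun z => (∑ d ∈ s, c d * F d z) + c' * F' z)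
      = fun x => (fun x => ∑ d ∈ s, (fun x => (c d : ℝ) * lift M (F d) x) x) x
        + (fun x => (c' : ℝ) * lift M F' x) x := by
  funext x
  unfold lift
  push_cast
  rfl

lemma N3_lift_sum_le (M : ℕ) [NeZero M] (s : Finset ℕ) (c : ℕ → ℤ) (F : ℕ → ℤ → ℤ) (c' : ℤ)
    (F' : ℤ → ℤ) :
    N3 (lift M (fun z => (∑ d ∈ s, c d * F d z) + c' * F' z))
      ≤ (∑ d ∈ s, |(c d : ℝ)| * N3 (lift M (F d))) + |(c' : ℝ)| * N3 (lift M F') := by
  rw [lift_sum_smul]
  refine (N3_add_le _ _).trans ?_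
  rw [N3_smul]
  refine add_le_add ?_ le_rfl
  refine (N3_sum_le s _).trans ?_
  exact Finset.sum_le_sum fun d _ => by rw [N3_smul]

lemma sum_eta_abs : ∀ t ≤ 64, ∑ d ∈ range t, |etaZ (d : ℤ)| ≤ 64 := by
  have h : ∑ d ∈ range 64, |etaZ (d : ℤ)| = 64 := by decide +kernel
  intro t ht
  rw [← h]
  exact Finset.sum_le_sum_of_subset_of_nonneg (Finset.range_subset_range.2 ht)
    (fun _ _ _ => abs_nonneg _)

/-- the bound for truncated digit functions. -/
lemma N3_PZ (M : ℕ) [NeZero M] (j : ℕ) (hM : 4 * 64 ^ j ≤ M) (R : ℤ) (hR : 0 ≤ R) :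
    N3 (lift M (PZ j R)) ≤ 12 * q0 ^ j := by
  induction j generalizing R with
  | zero =>
    by_cases h : R = 0
    · have : PZ 0 R = fun _ => 0 := by
        funext z; subst h
        unfold PZ
        split_ifs with hz
        · exact HZ_neg _ _ hz
        · rfl
      rw [this]
      have e : lift M (fun _ => (0 : ℤ)) = fun _ => (0 : ℝ) := by
        funext x; simp [lift]
      rw [e, N3_zero]; unfold q0; norm_num
    · rw [PZ_big 0 R (by simp; omega)]
      refine (N3_HZ M 0 hM).trans ?_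
      norm_num
  | succ j ih =>
    have hq : (0 : ℝ) < q0 := by unfold q0; norm_num
    by_cases hbig : 64 ^ (j + 1) ≤ R
    · rw [PZ_big _ _ hbig]
      refine (N3_HZ M (j + 1) hM).trans ?_
      have : 0 ≤ q0 ^ (j + 1) := by positivity
      linarith
    push Not at hbig
    have hp : (0 : ℤ) < 64 ^ j := by positivity
    have hMj : 4 * 64 ^ j ≤ M := by
      rw [pow_succ] at hM
      omega
    obtain ⟨t, R', hRt, hR0', hR1', ht⟩ : ∃ (t : ℕ) (R' : ℤ), R = 64 ^ j * t + R' ∧ 0 ≤ R' ∧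
        R' < 64 ^ j ∧ t < 64 := by
      have hdiv : 0 ≤ R / 64 ^ j := Int.ediv_nonneg hR hp.le
      refine ⟨(R / 64 ^ j).toNat, R % 64 ^ j, ?_, Int.emod_nonneg _ hp.ne', Int.emod_lt_of_pos _ hp,
        ?_⟩
      · rw [Int.toNat_of_nonneg hdiv]
        have := Int.emod_add_mul_ediv R (64 ^ j)
        linarith
      · have : R / 64 ^ j < 64 := by
          apply Int.ediv_lt_of_lt_mul hp
          rw [pow_succ] at hbig; linarith
        omega
    have hfun : PZ (j + 1) R = fun z => (∑ d ∈ range t, etaZ d * (fun z => HZ j (z - ((64 ^ j * d : ℕ) : ℤ))) z)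
        + etaZ t * (fun z => PZ j R' (z - ((64 ^ j * t : ℕ) : ℤ))) z := by
      funext z
      rw [hRt]
      exact PZ_succ j t ht R' hR0' hR1' z
    rw [hfun]
    refine (N3_lift_sum_le M (range t) (fun d => etaZ d) (fun d z => HZ j (z - ((64 ^ j * d : ℕ) : ℤ)))
      (etaZ t) (fun z => PZ j R' (z - ((64 ^ j * t : ℕ) : ℤ)))).trans ?_
    have hroom : ∀ d < 64, 64 ^ j + 64 ^ j * d ≤ M := by
      intro d hd
      have : 64 ^ j * d ≤ 64 ^ j * 63 := Nat.mul_le_mul_left _ (by omega)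
      have h2 : 4 * 64 ^ (j + 1) = 256 * 64 ^ j := by rw [pow_succ]; ring
      omega
    have hA : ∀ d ∈ range t, |((etaZ (d : ℤ) : ℤ) : ℝ)| * N3 (lift M (fun z => HZ j (z - ((64 ^ j * d : ℕ) : ℤ))))
        ≤ |((etaZ (d : ℤ) : ℤ) : ℝ)| * q0 ^ j := by
      intro d hd
      apply mul_le_mul_of_nonneg_left _ (abs_nonneg _)
      rw [N3_lift_shift M (64 ^ j) (64 ^ j * d) (hroom d (by have := Finset.mem_range.1 hd; omega))
        (HZ j) (fun z hz => HZ_neg j z hz) (fun z hz => HZ_ge j z (by exact_mod_cast hz))]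
      exact N3_HZ M j hMj
    have hB : N3 (lift M (fun z => PZ j R' (z - ((64 ^ j * t : ℕ) : ℤ)))) ≤ 12 * q0 ^ j := by
      rw [N3_lift_shift M (64 ^ j) (64 ^ j * t) (hroom t ht)
        (PZ j R') (fun z hz => PZ_neg j R' z hz) (fun z hz => PZ_ge j R' z (by exact_mod_cast hz))]
      exact ih hMj R' hR0'
    have hC : |((etaZ (t : ℤ) : ℤ) : ℝ)| ≤ 2 := by
      rw [← Int.cast_abs]
      exact_mod_cast etaZ_abs_le t
    have hD : ∑ d ∈ range t, |((etaZ (d : ℤ) : ℤ) : ℝ)| ≤ 64 := by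
      have := sum_eta_abs t ht.le
      have h2 : ((∑ d ∈ range t, |etaZ (d : ℤ)| : ℤ) : ℝ) ≤ 64 := by exact_mod_cast this
      simpa using h2
    have hqj : 0 < q0 ^ j := by positivity
    calc (∑ d ∈ range t, |((etaZ (d : ℤ) : ℤ) : ℝ)| * N3 (lift M (fun z => HZ j (z - ((64 ^ j * d : ℕ) : ℤ)))))
          + |((etaZ (t : ℤ) : ℤ) : ℝ)| * N3 (lift M (fun z => PZ j R' (z - ((64 ^ j * t : ℕ) : ℤ))))
        ≤ (∑ d ∈ range t, |((etaZ (d : ℤ) : ℤ) : ℝ)| * q0 ^ j) + 2 * (12 * q0 ^ j) := by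
          refine add_le_add (Finset.sum_le_sum hA) ?_
          exact mul_le_mul hC hB (N3_nonneg _) (by norm_num)
      _ = (∑ d ∈ range t, |((etaZ (d : ℤ) : ℤ) : ℝ)|) * q0 ^ j + 24 * q0 ^ j := by
          rw [Finset.sum_mul]; ring
      _ ≤ 64 * q0 ^ j + 24 * q0 ^ j := by
          have := mul_le_mul_of_nonneg_right hD hqj.le
          linarith
      _ ≤ 12 * q0 ^ (j + 1) := by
          rw [pow_succ]; unfold q0 at *; nlinarith

end Pool.Agent.Lib.MP_365e45_an
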