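import Mathlib

/-!
Definitions for problem MP_365e45_an: admissible weights, the Fourier approximation condition and
the weighted bilinear averages.
-/

set_option autoImplicit false

namespace Pool.Agent.Lib.MP_365e45_an

open Filter

/-- `e(x) = exp(2πix)`. -/
noncomputable def e (x : ℝ) : ℂ := Complex.exp (2 * Real.pi * Complex.I * x)

/-- The function `F · 1_{[N]}`, `[N] = {1, …, N}`. -/
noncomputable def truncate (N : ℕ) (F : ℤ → ℂ) (n : ℤ) : ℂ := if 1 ≤ n ∧ n ≤ (N : ℤ) then F n else 0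

/-- The sum over all `x, h₁, …, h_s ∈ ℤ` of
`∏_{ω ∈ {0,1}^s} 𝒞^{|ω|} (F · 1_{[N]})(x + ω₁ h₁ + ⋯ + ω_s h_s)`, where `𝒞` is complex conjugation
(only `x ∈ [1, N]` and `h_i ∈ [-N, N]` can contribute). -/
noncomputable def gowersSum (s N : ℕ) (F : ℤ → ℂ) : ℂ :=
  ∑ x ∈ Finset.Icc (1 : ℤ) N, ∑ h ∈ Fintype.piFinset (fun _ : Fin s => Finset.Icc (-(N : ℤ)) N),
    ∏ ω : Fin s → Bool,
      if Even (Finset.univ.filter (fun i => ω i = true)).card then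
        truncate N F (x + ∑ i, if ω i = true then h i else 0)
      else (starRingEnd ℂ) (truncate N F (x + ∑ i, if ω i = true then h i else 0))

/-- The Gowers norm `‖F‖_{U^s([N])} = ‖F 1_{[N]}‖_{U^s(ℤ)} / ‖1_{[N]}‖_{U^s(ℤ)}`. -/
noncomputable def gowersNorm (s N : ℕ) (F : ℤ → ℂ) : ℝ :=
  (‖gowersSum s N F‖ / ‖gowersSum s N (fun _ => 1)‖) ^ ((1 : ℝ) / 2 ^ s)

/-- `∑_{a mod q, (a,q) = 1} S(a/q) e(na/q)`. -/
noncomputable def ramanujanTerm (S : ℚ → ℂ) (q : ℕ) (n : ℤ) : ℂ :=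
  ∑ a ∈ (Finset.range q).filter (fun a => Nat.Coprime a q), S ((a : ℚ) / q) * e ((n : ℝ) * a / q)

/-- `∑_{q ≤ M} ∑_{(a,q)=1} S(a/q) e(na/q)`. -/
noncomputable def majorArcSum (S : ℚ → ℂ) (M : ℕ) (n : ℤ) : ℂ :=
  ∑ q ∈ Finset.Icc 1 M, ramanujanTerm S q n

/-- `w_Q(n) = ∑_{a/q reduced, Q/2 < q ≤ Q} S(a/q) e(na/q)`. -/
noncomputable def dyadicPiece (S : ℚ → ℂ) (Q : ℕ) (n : ℤ) : ℂ :=
  ∑ q ∈ (Finset.Icc 1 Q).filter (fun q => Q < 2 * q), ramanujanTerm S q n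

/-- `∑_{Q ≤ M} w_Q(n)`, the sum over powers `Q` of two. -/
noncomputable def dyadicSum (S : ℚ → ℂ) (M : ℕ) (n : ℤ) : ℂ :=
  ∑ j ∈ (Finset.range (M + 1)).filter (fun j => 2 ^ j ≤ M), dyadicPiece S (2 ^ j) n

/-- Upper normalization: for some `C`, the limsup of `|I|⁻¹ ∑_{n ∈ I} |w(n)|` over the integer
intervals `I = {a, …, b}` with `|I| = b - a + 1 → ∞` and `0 ∈ 10 I` is at most `C`. -/
def UpperNormalized (w : ℤ → ℂ) : Prop :=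
  ∃ C : ℝ, ∀ ε : ℝ, 0 < ε → ∃ L : ℤ, ∀ a b : ℤ, a ≤ b → L ≤ b - a + 1 → |a + b| ≤ 10 * (b - a + 1) →
    (∑ n ∈ Finset.Icc a b, ‖w n‖) / ((b - a + 1 : ℤ) : ℝ) ≤ C + ε

/-- `w` is admissible, with coefficients `S` and levels `M = M(N)`. -/
structure Admissible (w : ℤ → ℂ) (S : ℚ → ℂ) (M : ℕ → ℕ) : Prop where
  /-- upper normalization -/
  upper : UpperNormalized w
  /-- `|S(a/q)| ≤ C q^{o(1)-1}` -/
  coeff : ∀ ε : ℝ, 0 < ε → ∃ C : ℝ, ∀ r : ℚ, ‖S r‖ ≤ C * (r.den : ℝ) ^ (ε - 1)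
  /-- `1 ≤ M(N)` for large `N` -/
  level_pos : ∀ᶠ N in atTop, 1 ≤ M N
  /-- `M(N) ≤ N^{o(1)}` -/
  level : ∀ ε : ℝ, 0 < ε → ∀ᶠ N : ℕ in atTop, (M N : ℝ) ≤ (N : ℝ) ^ ε
  /-- the approximation in `U^s([N])` with error `C (log N)^{-ν/2^s}`, `ν > 4`, `s ≥ 3` -/
  approx : ∃ (C ν : ℝ) (s : ℕ), 4 < ν ∧ 3 ≤ s ∧ ∀ᶠ N : ℕ in atTop,
    gowersNorm s N (fun n => w n - majorArcSum S (M N) n) ≤ C * (Real.log N) ^ (-(ν / 2 ^ s))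

/-- The Fourier approximation condition, with the same `S` and `M`. -/
def FourierApprox (w : ℤ → ℂ) (S : ℚ → ℂ) (M : ℕ → ℕ) : Prop :=
  ∃ c C : ℝ, 0 < c ∧ ∀ᶠ N : ℕ in atTop, ∀ β : ℝ,
    ‖(1 / (N : ℂ)) * ∑ n ∈ Finset.Icc 1 N,
      (w n - dyadicSum S (M N) n) * e (-((n : ℝ) * β))‖ ≤ C * (N : ℝ) ^ (-c)

/-- `B_{w,N}(f,g)(x) = N⁻¹ ∑_{1 ≤ n ≤ N} w(n) f(Tⁿ x) g(T⁻ⁿ x)`. -/
noncomputable def bilinearAverage {X : Type*} [MeasurableSpace X] (w : ℤ → ℂ) (T : X ≃ᵐ X)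
    (f g : X → ℂ) (N : ℕ) (x : X) : ℂ :=
  (1 / (N : ℂ)) * ∑ n ∈ Finset.Icc 1 N, w n * (f (T^[n] x) * g (T.symm^[n] x))

end Pool.Agent.Lib.MP_365e45_an
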