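import Mathlib

/-!
Gowers `U^2` and `U^3` sums on a finite abelian group and the triangle inequality.
-/

set_option autoImplicit false

namespace Pool.Agent.Lib.MP_365e45_an

open Finset

variable {G : Type*} [AddCommGroup G] [Fintype G]

/-- correlation of two functions. -/
noncomputable def cor (F K : G → ℝ) (a : G) : ℝ := ∑ x, F x * K (x + a)

/-- the `U^2` sum. -/
noncomputable def S2 (F : G → ℝ) : ℝ := ∑ a, (cor F F a) ^ 2

/-- the mixed derivative. -/
noncomputable def mder (F K : G → ℝ) (h : G) : G → ℝ := fun x => F x * K (x + h)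

/-- the two-dimensional correlation. -/
noncomputable def cc (F : G → ℝ) (a b : G) : ℝ :=
  ∑ x, F x * F (x + a) * (F (x + b) * F (x + a + b))

/-- the `U^3` sum. -/
noncomputable def S3 (F : G → ℝ) : ℝ := ∑ h, S2 (mder F F h)

lemma sum_shift (f : G → ℝ) (c : G) : ∑ x, f (x + c) = ∑ x, f x :=
  Fintype.sum_equiv (Equiv.addRight c) _ _ (fun _ => rfl)

lemma sum_shift' (f : G → ℝ) (c : G) : ∑ x, f (c + x) = ∑ x, f x :=
  Fintype.sum_equiv (Equiv.addLeft c) _ _ (fun _ => rfl)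

lemma mix2 (F K : G → ℝ) : ∑ a, (cor F K a) ^ 2 = ∑ b, cor F F b * cor K K b := by
  have h1 : ∀ a, (cor F K a) ^ 2 = ∑ x, ∑ b, F x * F (x + b) * (K (x + a) * K (x + a + b)) := by
    intro a
    rw [sq, cor, Finset.sum_mul_sum]
    refine Finset.sum_congr rfl fun x _ => ?_
    rw [← sum_shift' (fun y => F x * K (x + a) * (F y * K (y + a))) x]
    refine Finset.sum_congr rfl fun b _ => ?_
    have : x + a + b = x + b + a := by abel
    rw [this]; ring
  calc ∑ a, (cor F K a) ^ 2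
      = ∑ a, ∑ x, ∑ b, F x * F (x + b) * (K (x + a) * K (x + a + b)) :=
        Finset.sum_congr rfl fun a _ => h1 a
    _ = ∑ x, ∑ a, ∑ b, F x * F (x + b) * (K (x + a) * K (x + a + b)) := Finset.sum_comm
    _ = ∑ x, ∑ b, ∑ a, F x * F (x + b) * (K (x + a) * K (x + a + b)) :=
        Finset.sum_congr rfl fun x _ => Finset.sum_comm
    _ = ∑ x, ∑ b, F x * F (x + b) * cor K K b := by
        refine Finset.sum_congr rfl fun x _ => Finset.sum_congr rfl fun b _ => ?_
        rw [← Finset.mul_sum, cor]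
        congr 1
        exact sum_shift' (fun z => K z * K (z + b)) x
    _ = ∑ b, cor F F b * cor K K b := by
        rw [Finset.sum_comm]
        refine Finset.sum_congr rfl fun b _ => ?_
        rw [← Finset.sum_mul]
        rfl

lemma S2_nonneg (F : G → ℝ) : 0 ≤ S2 F := Finset.sum_nonneg fun _ _ => sq_nonneg _

lemma S3_nonneg (F : G → ℝ) : 0 ≤ S3 F := Finset.sum_nonneg fun _ _ => S2_nonneg _

/-- `ℓ²` norm of a finite family. -/
noncomputable def l2 {ι : Type*} [Fintype ι] (f : ι → ℝ) : ℝ := (∑ i, |f i| ^ (2 : ℝ)) ^ (1 / (2 : ℝ))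

lemma l2_add_le {ι : Type*} [Fintype ι] (f g : ι → ℝ) : l2 (fun i => f i + g i) ≤ l2 f + l2 g :=
  Real.Lp_add_le Finset.univ f g (by norm_num)

lemma l2_eq {ι : Type*} [Fintype ι] (f : ι → ℝ) : l2 f = Real.sqrt (∑ i, f i ^ 2) := by
  unfold l2
  rw [Real.sqrt_eq_rpow]
  congr 1
  refine Finset.sum_congr rfl fun i _ => ?_
  rw [Real.rpow_two, sq_abs]

/-- `ℓ⁴` norm of a finite family. -/
noncomputable def l4 {ι : Type*} [Fintype ι] (f : ι → ℝ) : ℝ := (∑ i, |f i| ^ (4 : ℝ)) ^ (1 / (4 : ℝ))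

lemma l4_add_le {ι : Type*} [Fintype ι] (f g : ι → ℝ) : l4 (fun i => f i + g i) ≤ l4 f + l4 g :=
  Real.Lp_add_le Finset.univ f g (by norm_num)

lemma l4_mono {ι : Type*} [Fintype ι] {f g : ι → ℝ} (h : ∀ i, |f i| ≤ |g i|) : l4 f ≤ l4 g := by
  unfold l4
  apply Real.rpow_le_rpow
  · exact Finset.sum_nonneg fun i _ => by positivity
  · exact Finset.sum_le_sum fun i _ => Real.rpow_le_rpow (abs_nonneg _) (h i) (by norm_num)
  · norm_num

/-- the `U^2` norm (unnormalised). -/
noncomputable def N2 (F : G → ℝ) : ℝ := Real.sqrt (Real.sqrt (S2 F))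

lemma N2_nonneg (F : G → ℝ) : 0 ≤ N2 F := Real.sqrt_nonneg _

lemma N2_sq (F : G → ℝ) : N2 F ^ 2 = Real.sqrt (S2 F) := Real.sq_sqrt (Real.sqrt_nonneg _)

lemma N2_pow4 (F : G → ℝ) : N2 F ^ 4 = S2 F := by
  have : N2 F ^ 4 = (N2 F ^ 2) ^ 2 := by ring
  rw [this, N2_sq, Real.sq_sqrt (S2_nonneg F)]

lemma l2_cor_le (F K : G → ℝ) : l2 (cor F K) ≤ N2 F * N2 K := by
  rw [l2_eq, mix2]
  have hcs : ∑ b, cor F F b * cor K K b ≤ Real.sqrt (S2 F) * Real.sqrt (S2 K) := by
    have := Real.sum_mul_le_sqrt_mul_sqrt Finset.univ (cor F F) (cor K K)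
    simpa [S2] using this
  have h2 : Real.sqrt (S2 F) * Real.sqrt (S2 K) = (N2 F * N2 K) ^ 2 := by
    rw [mul_pow, N2_sq, N2_sq]
  rw [h2] at hcs
  calc Real.sqrt (∑ b, cor F F b * cor K K b) ≤ Real.sqrt ((N2 F * N2 K) ^ 2) :=
        Real.sqrt_le_sqrt hcs
    _ = N2 F * N2 K := Real.sqrt_sq (mul_nonneg (N2_nonneg _) (N2_nonneg _))

lemma cor_add (F K : G → ℝ) (a : G) :
    cor (fun x => F x + K x) (fun x => F x + K x) a
      = (cor F F a + cor F K a) + (cor K F a + cor K K a) := by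
  unfold cor
  rw [← Finset.sum_add_distrib, ← Finset.sum_add_distrib, ← Finset.sum_add_distrib]
  refine Finset.sum_congr rfl fun x _ => ?_
  ring

lemma N2_add_le (F K : G → ℝ) : N2 (fun x => F x + K x) ≤ N2 F + N2 K := by
  have h0 : N2 (fun x => F x + K x) ^ 2
      = l2 (cor (fun x => F x + K x) (fun x => F x + K x)) := by
    rw [N2_sq, l2_eq, S2]
  have h1 : cor (fun x => F x + K x) (fun x => F x + K x)
      = fun a => (fun a => cor F F a + cor F K a) a + (fun a => cor K F a + cor K K a) a := by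
    funext a; exact cor_add F K a
  have h2 : N2 (fun x => F x + K x) ^ 2 ≤ (N2 F + N2 K) ^ 2 := by
    rw [h0, h1]
    refine (l2_add_le _ _).trans ?_
    have ha := l2_add_le (cor F F) (cor F K)
    have hb := l2_add_le (cor K F) (cor K K)
    have c1 := l2_cor_le F F
    have c2 := l2_cor_le F K
    have c3 := l2_cor_le K F
    have c4 := l2_cor_le K K
    nlinarith [ha, hb, c1, c2, c3, c4]
  exact le_of_sq_le_sq h2 (add_nonneg (N2_nonneg _) (N2_nonneg _))

lemma S2_eq_cc (F : G → ℝ) : S2 F = ∑ a, ∑ b, cc F a b := by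
  unfold S2
  refine Finset.sum_congr rfl fun a _ => ?_
  rw [sq, cor, Finset.sum_mul_sum, ← Finset.sum_comm]
  unfold cc
  rw [Finset.sum_comm]
  conv_rhs => rw [Finset.sum_comm]
  refine Finset.sum_congr rfl fun x _ => ?_
  rw [← sum_shift' (fun y => F x * F (x + a) * (F y * F (y + a))) x]
  refine Finset.sum_congr rfl fun b _ => ?_
  have : x + a + b = x + b + a := by abel
  rw [this]

lemma mix3 (F K : G → ℝ) : ∑ h, S2 (mder F K h) = ∑ a, ∑ b, cc F a b * cc K a b := by
  have h1 : ∀ h, S2 (mder F K h) = ∑ a, ∑ b, ∑ x,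
      (F x * F (x + a) * (F (x + b) * F (x + a + b))) *
      (K (x + h) * K (x + h + a) * (K (x + h + b) * K (x + h + a + b))) := by
    intro h
    rw [S2_eq_cc]
    refine Finset.sum_congr rfl fun a _ => Finset.sum_congr rfl fun b _ => ?_
    unfold cc mder
    refine Finset.sum_congr rfl fun x _ => ?_
    have e1 : x + a + h = x + h + a := by abel
    have e2 : x + b + h = x + h + b := by abel
    have e3 : x + a + b + h = x + h + a + b := by abel
    rw [e1, e2, e3]; ring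
  calc ∑ h, S2 (mder F K h)
      = ∑ h, ∑ a, ∑ b, ∑ x, (F x * F (x + a) * (F (x + b) * F (x + a + b))) *
      (K (x + h) * K (x + h + a) * (K (x + h + b) * K (x + h + a + b))) :=
        Finset.sum_congr rfl fun h _ => h1 h
    _ = ∑ a, ∑ b, ∑ h, ∑ x, (F x * F (x + a) * (F (x + b) * F (x + a + b))) *
      (K (x + h) * K (x + h + a) * (K (x + h + b) * K (x + h + a + b))) := by
        rw [Finset.sum_comm]
        exact Finset.sum_congr rfl fun a _ => Finset.sum_comm
    _ = ∑ a, ∑ b, cc F a b * cc K a b := by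
        refine Finset.sum_congr rfl fun a _ => Finset.sum_congr rfl fun b _ => ?_
        rw [Finset.sum_comm]
        unfold cc
        rw [Finset.sum_mul]
        refine Finset.sum_congr rfl fun x _ => ?_
        rw [← Finset.mul_sum]
        congr 1
        exact sum_shift' (fun z => K z * K (z + a) * (K (z + b) * K (z + a + b))) x

lemma S3_eq_cc (F : G → ℝ) : S3 F = ∑ a, ∑ b, (cc F a b) ^ 2 := by
  unfold S3
  rw [mix3]
  simp only [sq]

/-- the `U^3` norm (unnormalised). -/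
noncomputable def N3 (F : G → ℝ) : ℝ := Real.sqrt (Real.sqrt (Real.sqrt (S3 F)))

lemma N3_nonneg (F : G → ℝ) : 0 ≤ N3 F := Real.sqrt_nonneg _

lemma N3_pow4 (F : G → ℝ) : N3 F ^ 4 = Real.sqrt (S3 F) := by
  have : N3 F ^ 4 = (N3 F ^ 2) ^ 2 := by ring
  rw [this, N3, Real.sq_sqrt (Real.sqrt_nonneg _), Real.sq_sqrt (Real.sqrt_nonneg _)]

lemma N3_pow8 (F : G → ℝ) : N3 F ^ 8 = S3 F := by
  have : N3 F ^ 8 = (N3 F ^ 4) ^ 2 := by ring
  rw [this, N3_pow4, Real.sq_sqrt (S3_nonneg F)]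

lemma sum_mder_le (F K : G → ℝ) : ∑ h, S2 (mder F K h) ≤ (N3 F * N3 K) ^ 4 := by
  rw [mix3, mul_pow, N3_pow4, N3_pow4, S3_eq_cc, S3_eq_cc]
  have := Real.sum_mul_le_sqrt_mul_sqrt (Finset.univ : Finset (G × G))
    (fun p => cc F p.1 p.2) (fun p => cc K p.1 p.2)
  simpa [Fintype.sum_prod_type] using this

lemma l4_N2 (F K : G → ℝ) : l4 (fun h => N2 (mder F K h)) ≤ N3 F * N3 K := by
  unfold l4
  have h1 : ∑ h, |N2 (mder F K h)| ^ (4 : ℝ) = ∑ h, S2 (mder F K h) := by
    refine Finset.sum_congr rfl fun h _ => ?_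
    rw [abs_of_nonneg (N2_nonneg _)]
    have : (N2 (mder F K h)) ^ (4 : ℝ) = (N2 (mder F K h)) ^ (4 : ℕ) := by
      rw [← Real.rpow_natCast]; norm_num
    rw [this, N2_pow4]
  rw [h1]
  have h2 := sum_mder_le F K
  have hnn : 0 ≤ N3 F * N3 K := mul_nonneg (N3_nonneg _) (N3_nonneg _)
  calc (∑ h, S2 (mder F K h)) ^ (1 / (4 : ℝ)) ≤ ((N3 F * N3 K) ^ 4) ^ (1 / (4 : ℝ)) :=
        Real.rpow_le_rpow (Finset.sum_nonneg fun _ _ => S2_nonneg _) h2 (by norm_num)
    _ = N3 F * N3 K := by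
        rw [← Real.rpow_natCast (N3 F * N3 K) 4, ← Real.rpow_mul hnn]
        norm_num

lemma l4_N2_self (F : G → ℝ) : l4 (fun h => N2 (mder F F h)) = N3 F ^ 2 := by
  unfold l4
  have h1 : ∑ h, |N2 (mder F F h)| ^ (4 : ℝ) = S3 F := by
    unfold S3
    refine Finset.sum_congr rfl fun h _ => ?_
    rw [abs_of_nonneg (N2_nonneg _)]
    have : (N2 (mder F F h)) ^ (4 : ℝ) = (N2 (mder F F h)) ^ (4 : ℕ) := by
      rw [← Real.rpow_natCast]; norm_num
    rw [this, N2_pow4]
  rw [h1, ← N3_pow8]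
  have : N3 F ^ 8 = (N3 F ^ 2) ^ 4 := by ring
  rw [this, ← Real.rpow_natCast (N3 F ^ 2) 4, ← Real.rpow_mul (by positivity)]
  norm_num

omit [Fintype G] in
lemma mder_add (F K : G → ℝ) (h : G) :
    mder (fun x => F x + K x) (fun x => F x + K x) h
      = fun x => (fun x => mder F F h x + mder F K h x) x
          + (fun x => mder K F h x + mder K K h x) x := by
  funext x; unfold mder; ring

/-- The triangle inequality for the `U^3` norm. -/
theorem N3_add_le (F K : G → ℝ) : N3 (fun x => F x + K x) ≤ N3 F + N3 K := by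
  have h2 : N3 (fun x => F x + K x) ^ 2 ≤ (N3 F + N3 K) ^ 2 := by
    rw [← l4_N2_self]
    have hb : ∀ h, N2 (mder (fun x => F x + K x) (fun x => F x + K x) h)
        ≤ ((N2 (mder F F h) + N2 (mder F K h)) + (N2 (mder K F h) + N2 (mder K K h))) := by
      intro h
      rw [mder_add]
      refine (N2_add_le _ _).trans ?_
      exact add_le_add (N2_add_le _ _) (N2_add_le _ _)
    refine (l4_mono (g := fun h => ((N2 (mder F F h) + N2 (mder F K h))
      + (N2 (mder K F h) + N2 (mder K K h)))) ?_).trans ?_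
    · intro h
      rw [abs_of_nonneg (N2_nonneg _), abs_of_nonneg]
      · exact hb h
      · have := N2_nonneg (mder F F h)
        have := N2_nonneg (mder F K h)
        have := N2_nonneg (mder K F h)
        have := N2_nonneg (mder K K h)
        positivity
    · refine (l4_add_le (fun h => N2 (mder F F h) + N2 (mder F K h))
        (fun h => N2 (mder K F h) + N2 (mder K K h))).trans ?_
      have ha := l4_add_le (fun h => N2 (mder F F h)) (fun h => N2 (mder F K h))
      have hb := l4_add_le (fun h => N2 (mder K F h)) (fun h => N2 (mder K K h))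
      have c1 := l4_N2 F F
      have c2 := l4_N2 F K
      have c3 := l4_N2 K F
      have c4 := l4_N2 K K
      nlinarith [ha, hb, c1, c2, c3, c4]
  exact le_of_sq_le_sq h2 (add_nonneg (N3_nonneg _) (N3_nonneg _))

/-- The vertex form of a three-dimensional cube. -/
noncomputable def vert (F : G → ℝ) (x y₁ y₂ y₃ : G) : ℝ :=
  F x * F y₁ * (F y₂ * F (y₁ + y₂ - x)) *
    (F y₃ * F (y₁ + y₃ - x) * (F (y₂ + y₃ - x) * F (y₁ + y₂ + y₃ - 2 • x)))

lemma S3_eq_vert (F : G → ℝ) : S3 F = ∑ x, ∑ y₁, ∑ y₂, ∑ y₃, vert F x y₁ y₂ y₃ := by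
  have h1 : S3 F = ∑ h, ∑ a, ∑ b, ∑ x, vert F x (x + a) (x + b) (x + h) := by
    unfold S3
    refine Finset.sum_congr rfl fun h _ => ?_
    rw [S2_eq_cc]
    refine Finset.sum_congr rfl fun a _ => Finset.sum_congr rfl fun b _ => ?_
    unfold cc mder vert
    refine Finset.sum_congr rfl fun x _ => ?_
    have e1 : x + a + (x + b) - x = x + a + b := by abel
    have e2 : x + a + (x + h) - x = x + a + h := by abel
    have e3 : x + b + (x + h) - x = x + b + h := by abel
    have e4 : x + a + (x + b) + (x + h) - 2 • x = x + a + b + h := by rw [two_smul]; abel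
    rw [e1, e2, e3, e4]; ring
  rw [h1]
  calc ∑ h, ∑ a, ∑ b, ∑ x, vert F x (x + a) (x + b) (x + h)
      = ∑ h, ∑ a, ∑ x, ∑ b, vert F x (x + a) (x + b) (x + h) :=
        Finset.sum_congr rfl fun h _ => Finset.sum_congr rfl fun a _ => Finset.sum_comm
    _ = ∑ h, ∑ x, ∑ a, ∑ b, vert F x (x + a) (x + b) (x + h) :=
        Finset.sum_congr rfl fun h _ => Finset.sum_comm
    _ = ∑ x, ∑ h, ∑ a, ∑ b, vert F x (x + a) (x + b) (x + h) := Finset.sum_comm
    _ = ∑ x, ∑ a, ∑ h, ∑ b, vert F x (x + a) (x + b) (x + h) :=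
        Finset.sum_congr rfl fun x _ => Finset.sum_comm
    _ = ∑ x, ∑ a, ∑ b, ∑ h, vert F x (x + a) (x + b) (x + h) :=
        Finset.sum_congr rfl fun x _ => Finset.sum_congr rfl fun a _ => Finset.sum_comm
    _ = ∑ x, ∑ y₁, ∑ y₂, ∑ y₃, vert F x y₁ y₂ y₃ := by
        refine Finset.sum_congr rfl fun x _ => ?_
        rw [← sum_shift' (fun y₁ => ∑ y₂, ∑ y₃, vert F x y₁ y₂ y₃) x]
        refine Finset.sum_congr rfl fun a _ => ?_
        rw [← sum_shift' (fun y₂ => ∑ y₃, vert F x (x + a) y₂ y₃) x]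
        refine Finset.sum_congr rfl fun b _ => ?_
        rw [← sum_shift' (fun y₃ => vert F x (x + a) (x + b) y₃) x]

lemma cc_smul (c : ℝ) (F : G → ℝ) (a b : G) : cc (fun x => c * F x) a b = c ^ 4 * cc F a b := by
  unfold cc
  rw [Finset.mul_sum]
  refine Finset.sum_congr rfl fun x _ => ?_
  ring

lemma S3_smul (c : ℝ) (F : G → ℝ) : S3 (fun x => c * F x) = c ^ 8 * S3 F := by
  rw [S3_eq_cc, S3_eq_cc, Finset.mul_sum]
  refine Finset.sum_congr rfl fun a _ => ?_
  rw [Finset.mul_sum]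
  refine Finset.sum_congr rfl fun b _ => ?_
  rw [cc_smul]; ring

lemma N3_smul (c : ℝ) (F : G → ℝ) : N3 (fun x => c * F x) = |c| * N3 F := by
  have h : N3 (fun x => c * F x) ^ 8 = (|c| * N3 F) ^ 8 := by
    rw [N3_pow8, S3_smul, mul_pow, N3_pow8]
    congr 1
    rw [show (8 : ℕ) = 2 * 4 by norm_num, pow_mul, pow_mul, sq_abs]
  have hnn : 0 ≤ |c| * N3 F := mul_nonneg (abs_nonneg _) (N3_nonneg _)
  exact (pow_left_inj₀ (N3_nonneg _) hnn (by norm_num)).1 h

lemma S3_shift (F : G → ℝ) (c : G) : S3 (fun x => F (x + c)) = S3 F := by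
  rw [S3_eq_cc, S3_eq_cc]
  refine Finset.sum_congr rfl fun a _ => Finset.sum_congr rfl fun b _ => ?_
  congr 1
  unfold cc
  rw [← sum_shift (fun x => F x * F (x + a) * (F (x + b) * F (x + a + b))) c]
  refine Finset.sum_congr rfl fun x _ => ?_
  have e1 : x + a + c = x + c + a := by abel
  have e2 : x + b + c = x + c + b := by abel
  have e3 : x + a + b + c = x + c + a + b := by abel
  beta_reduce
  rw [e1, e2, e3]

lemma N3_shift (F : G → ℝ) (c : G) : N3 (fun x => F (x + c)) = N3 F := by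
  unfold N3; rw [S3_shift]

lemma N3_zero : N3 (fun _ : G => (0 : ℝ)) = 0 := by
  have := N3_smul 0 (fun _ : G => (0 : ℝ))
  simpa using this

lemma N3_sum_le {ι : Type*} (s : Finset ι) (F : ι → G → ℝ) :
    N3 (fun x => ∑ i ∈ s, F i x) ≤ ∑ i ∈ s, N3 (F i) := by
  classical
  induction s using Finset.induction_on with
  | empty => simp [N3_zero]
  | insert i s hi ih =>
    simp only [Finset.sum_insert hi]
    exact (N3_add_le _ _).trans (by linarith)

end Pool.Agent.Lib.MP_365e45_an
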