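import Pool.Agent.Lib.MP_365e45_an.Admissible

/-!
The `2`-adic odometer and the functions on it.
-/

set_option autoImplicit false

namespace Pool.Agent.Lib.MP_365e45_an

open Finset Filter MeasureTheory Topology

/-! Digit sets -/

/-- lower parts of the digits. -/
def dig : ℕ → ℕ → ℕ
  | 0, _ => 0
  | k + 1, r => r % 32 + 64 * dig k (r / 64)

/-- upper parts of the digits. -/
def eps : ℕ → ℕ → ℕ
  | 0, _ => 0
  | k + 1, r => (r % 64 - r % 32) + 64 * eps k (r / 64)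

lemma eps_add_dig (k r : ℕ) (hr : r < 64 ^ k) : eps k r + dig k r = r := by
  induction k generalizing r with
  | zero => simp at hr; simp [eps, dig, hr]
  | succ k ih =>
    rw [eps, dig]
    have h1 : r / 64 < 64 ^ k := by
      rw [pow_succ] at hr
      exact Nat.div_lt_of_lt_mul (by rw [mul_comm]; exact hr)
    have := ih _ h1
    omega

lemma dig_lt (k r : ℕ) : dig k r < 64 ^ k := by
  induction k generalizing r with
  | zero => simp [dig]
  | succ k ih =>
    rw [dig, pow_succ]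
    have := ih (r / 64)
    omega

lemma HZ_dig (k r : ℕ) : (HZ k (dig k r)).natAbs = 2 ^ k := by
  induction k generalizing r with
  | zero => simp [dig, HZ]
  | succ k ih =>
    rw [dig]
    have h1 : ((r % 32 + 64 * dig k (r / 64) : ℕ) : ℤ) = 64 * ((dig k (r / 64) : ℕ) : ℤ) + ((r % 32 : ℕ) : ℤ) := by
      push_cast; ring
    rw [h1, HZ_step k _ _ (by omega) (by omega), Int.natAbs_mul, ih, etaZ_natAbs (by omega),
      pow_succ, mul_comm]

/-- the set of upper parts. -/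
def Eset : ℕ → Finset ℕ
  | 0 => {0}
  | k + 1 => (({0, 32} : Finset ℕ) ×ˢ Eset k).image (fun p => p.1 + 64 * p.2)

/-- the set containing `r + dig r`. -/
def Gset : ℕ → Finset ℕ
  | 0 => {0}
  | k + 1 => (((range 48).image (fun i => 2 * i)) ×ˢ Gset k).image (fun p => p.1 + 64 * p.2)

lemma Eset_card (k : ℕ) : (Eset k).card ≤ 2 ^ k := by
  induction k with
  | zero => simp [Eset]
  | succ k ih =>
    rw [Eset]
    refine Finset.card_image_le.trans ?_
    rw [Finset.card_product, pow_succ, mul_comm]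
    exact Nat.mul_le_mul ih (by decide)

lemma Gset_card (k : ℕ) : (Gset k).card ≤ 48 ^ k := by
  induction k with
  | zero => simp [Gset]
  | succ k ih =>
    rw [Gset]
    refine Finset.card_image_le.trans ?_
    rw [Finset.card_product, pow_succ, mul_comm]
    exact Nat.mul_le_mul ih (by decide)

lemma eps_mem (k r : ℕ) : eps k r ∈ Eset k := by
  induction k generalizing r with
  | zero => simp [eps, Eset]
  | succ k ih =>
    rw [eps, Eset]
    refine Finset.mem_image.2 ⟨(r % 64 - r % 32, eps k (r / 64)), ?_, rfl⟩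
    rw [Finset.mem_product]
    refine ⟨?_, ih _⟩
    simp only [Finset.mem_insert, Finset.mem_singleton]
    omega

lemma add_dig_mem (k r : ℕ) (hr : r < 64 ^ k) : r + dig k r ∈ Gset k := by
  induction k generalizing r with
  | zero => simp at hr; simp [dig, Gset, hr]
  | succ k ih =>
    have h1 : r / 64 < 64 ^ k := by
      rw [pow_succ] at hr
      exact Nat.div_lt_of_lt_mul (by rw [mul_comm]; exact hr)
    rw [dig, Gset]
    refine Finset.mem_image.2 ⟨(r % 64 + r % 32, r / 64 + dig k (r / 64)), ?_, ?_⟩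
    · rw [Finset.mem_product]
      refine ⟨?_, ih _ h1⟩
      refine Finset.mem_image.2 ⟨(r % 64 + r % 32) / 2, ?_, ?_⟩
      · rw [Finset.mem_range]; omega
      · simp only; omega
    · simp only; omega

/-! The odometer -/

/-- Borel sigma-algebra on the `2`-adic integers. -/
@[reducible] noncomputable def mZ2 : MeasurableSpace ℤ_[2] := borel ℤ_[2]

attribute [local instance] mZ2

lemma bZ2 : @BorelSpace ℤ_[2] _ mZ2 := ⟨rfl⟩

attribute [local instance] bZ2

/-- Haar probability measure on the `2`-adic integers. -/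
noncomputable def haar2 : Measure ℤ_[2] := Measure.addHaarMeasure ⊤

instance : haar2.IsAddHaarMeasure := by unfold haar2; infer_instance

lemma haar2_univ : haar2 Set.univ = 1 := by
  have := Measure.addHaarMeasure_self (K₀ := (⊤ : TopologicalSpace.PositiveCompacts ℤ_[2]))
  simpa [haar2] using this

instance : IsProbabilityMeasure haar2 := ⟨haar2_univ⟩

/-- residue classes modulo `64^k`. -/
noncomputable def res (k : ℕ) : ℤ_[2] →+* ZMod (2 ^ (6 * k)) := PadicInt.toZModPow (6 * k)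

lemma measurable_class (k : ℕ) (a : ZMod (2 ^ (6 * k))) : MeasurableSet {x | res k x = a} := by
  obtain ⟨y, hy⟩ := ZMod.ringHom_surjective (res k) a
  have h1 : {x | res k x = a} = Metric.closedBall y ((2 : ℝ) ^ (-((6 * k : ℕ) : ℤ))) := by
    ext x
    simp only [Set.mem_ofPred_eq, Metric.mem_closedBall]
    rw [dist_eq_norm]
    have h2 := PadicInt.norm_le_pow_iff_mem_span_pow (p := 2) (x - y) (6 * k)
    have h3 : ((2 : ℕ) : ℝ) = 2 := by norm_num
    rw [h3] at h2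
    rw [h2, ← PadicInt.ker_toZModPow, RingHom.mem_ker, map_sub, sub_eq_zero]
    rw [← hy]; rfl
  rw [h1]
  exact Metric.isClosed_closedBall.measurableSet

lemma haar_class (k : ℕ) (a : ZMod (2 ^ (6 * k))) :
    haar2 {x | res k x = a} = ((64 : ENNReal) ^ k)⁻¹ := by
  have hall : ∀ b : ZMod (2 ^ (6 * k)), haar2 {x | res k x = b} = haar2 {x | res k x = 0} := by
    intro b
    obtain ⟨y, hy⟩ := ZMod.ringHom_surjective (res k) b
    have h1 : {x | res k x = 0} = (fun x => x + y) ⁻¹' {x | res k x = b} := by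
      ext x
      simp only [Set.mem_ofPred_eq, Set.mem_preimage, map_add, hy]
      constructor
      · intro h; rw [h, zero_add]
      · intro h; simpa using h
    rw [h1]
    exact ((measurePreserving_add_right haar2 y).measure_preimage
      (measurable_class k b).nullMeasurableSet).symm
  have hsum : ∑ b : ZMod (2 ^ (6 * k)), haar2 {x | res k x = b} = 1 := by
    rw [← haar2_univ]
    have hU : (Set.univ : Set ℤ_[2]) = ⋃ b ∈ (Finset.univ : Finset (ZMod (2 ^ (6 * k)))), {x | res k x = b} := by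
      ext x; simp
    rw [hU, measure_biUnion_finset]
    · intro b _ c _ hbc
      rw [Function.onFun, Set.disjoint_left]
      intro x hx hx'
      exact hbc (hx.symm.trans hx')
    · intro b _; exact measurable_class k b
  rw [Finset.sum_congr rfl fun b _ => hall b] at hsum
  rw [Finset.sum_const, Finset.card_univ, ZMod.card, nsmul_eq_mul] at hsum
  rw [hall a]
  have h64 : ((2 ^ (6 * k) : ℕ) : ENNReal) = (64 : ENNReal) ^ k := by
    rw [pow_mul]; norm_num
  rw [h64] at hsum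
  exact ENNReal.eq_inv_of_mul_eq_one_left (by rw [mul_comm]; exact hsum)

/-- set of points whose residue modulo `64^k` belongs to `s`. -/
def cyl (k : ℕ) (s : Finset ℕ) : Set ℤ_[2] := {x | ∃ a ∈ s, res k x = (a : ZMod (2 ^ (6 * k)))}

lemma cyl_eq (k : ℕ) (s : Finset ℕ) :
    cyl k s = ⋃ a ∈ s, {x | res k x = (a : ZMod (2 ^ (6 * k)))} := by
  ext x; simp [cyl]

lemma measurable_cyl (k : ℕ) (s : Finset ℕ) : MeasurableSet (cyl k s) := by
  rw [cyl_eq]
  exact Finset.measurableSet_biUnion s fun a _ => measurable_class k _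

lemma haar_cyl (k : ℕ) (s : Finset ℕ) : haar2 (cyl k s) ≤ s.card * ((64 : ENNReal) ^ k)⁻¹ := by
  rw [cyl_eq]
  refine (measure_biUnion_finset_le s _).trans ?_
  rw [Finset.sum_congr rfl fun a _ => haar_class k _, Finset.sum_const, nsmul_eq_mul]

/-- The `ENNReal`-valued majorant. -/
noncomputable def Phi (a : ℝ) (s : ℕ → Finset ℕ) (x : ℤ_[2]) : ENNReal :=
  ∑' k, (cyl k (s k)).indicator (fun _ => ENNReal.ofReal (a ^ k)) x

lemma measurable_Phi (a : ℝ) (s : ℕ → Finset ℕ) : Measurable (Phi a s) := by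
  unfold Phi
  exact Measurable.tsum fun k => measurable_const.indicator (measurable_cyl k (s k))

lemma lintegral_Phi (a c : ℝ) (ha : 0 ≤ a) (hc : 0 ≤ c) (hac : a * c < 64) (s : ℕ → Finset ℕ)
    (hs : ∀ k, ((s k).card : ℝ) ≤ c ^ k) : ∫⁻ x, Phi a s x ∂haar2 < ⊤ := by
  unfold Phi
  rw [lintegral_tsum fun k => (measurable_const.indicator (measurable_cyl k (s k))).aemeasurable]
  have h1 : ∀ k, ∫⁻ x, (cyl k (s k)).indicator (fun _ => ENNReal.ofReal (a ^ k)) x ∂haar2
      ≤ ENNReal.ofReal ((a * c / 64) ^ k) := by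
    intro k
    rw [lintegral_indicator_const (measurable_cyl k (s k))]
    have h2 := haar_cyl k (s k)
    have h3 : ((s k).card : ENNReal) * ((64 : ENNReal) ^ k)⁻¹ ≤ ENNReal.ofReal (c ^ k / 64 ^ k) := by
      have h4 : ((64 : ENNReal) ^ k) = ENNReal.ofReal (64 ^ k) := by
        rw [ENNReal.ofReal_pow (by norm_num)]; norm_num
      have h5 : ((s k).card : ENNReal) = ENNReal.ofReal ((s k).card : ℝ) := by
        rw [ENNReal.ofReal_natCast]
      rw [h4, h5, ← ENNReal.ofReal_inv_of_pos (by positivity), ← ENNReal.ofReal_mul (by positivity)]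
      apply ENNReal.ofReal_le_ofReal
      rw [div_eq_mul_inv]
      exact mul_le_mul_of_nonneg_right (hs k) (by positivity)
    calc ENNReal.ofReal (a ^ k) * haar2 (cyl k (s k))
        ≤ ENNReal.ofReal (a ^ k) * ENNReal.ofReal (c ^ k / 64 ^ k) :=
          mul_le_mul_right (h2.trans h3) _
      _ = ENNReal.ofReal ((a * c / 64) ^ k) := by
          rw [← ENNReal.ofReal_mul (by positivity)]
          congr 1
          rw [div_pow, mul_pow]; ring
  refine lt_of_le_of_lt (ENNReal.tsum_le_tsum h1) ?_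
  have hsum : Summable fun k : ℕ => (a * c / 64) ^ k :=
    summable_geometric_of_lt_one (by positivity) (by rw [div_lt_one (by norm_num)]; exact hac)
  rw [← ENNReal.ofReal_tsum_of_nonneg (fun k => by positivity) hsum]
  exact ENNReal.ofReal_lt_top

/-- The function built from the majorant. -/
noncomputable def fn (a p : ℝ) (s : ℕ → Finset ℕ) (x : ℤ_[2]) : ℂ :=
  (((Phi a s x).toReal ^ (1 / p) : ℝ) : ℂ)

lemma fn_memLp (a c p : ℝ) (hp : 1 < p) (ha : 0 ≤ a) (hc : 0 ≤ c) (hac : a * c < 64)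
    (s : ℕ → Finset ℕ) (hs : ∀ k, ((s k).card : ℝ) ≤ c ^ k) :
    MemLp (fn a p s) (ENNReal.ofReal p) haar2 := by
  have hp0 : 0 < p := by linarith
  have hmeas : Measurable (fn a p s) := by
    unfold fn
    exact Complex.measurable_ofReal.comp ((measurable_Phi a s).ennreal_toReal.pow_const _)
  refine ⟨hmeas.aestronglyMeasurable, ?_⟩
  rw [eLpNorm_lt_top_iff_lintegral_rpow_enorm_lt_top
    (by simpa using hp0) ENNReal.ofReal_ne_top]
  rw [ENNReal.toReal_ofReal hp0.le]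
  refine lt_of_le_of_lt (lintegral_mono fun x => ?_) (lintegral_Phi a c ha hc hac s hs)
  have h1 : 0 ≤ (Phi a s x).toReal ^ (1 / p) := Real.rpow_nonneg ENNReal.toReal_nonneg _
  have h2 : ‖fn a p s x‖ₑ = ENNReal.ofReal ((Phi a s x).toReal ^ (1 / p)) := by
    unfold fn
    rw [← ofReal_norm, Complex.norm_real, Real.norm_of_nonneg h1]
  rw [h2, ENNReal.ofReal_rpow_of_nonneg h1 hp0.le, ← Real.rpow_mul ENNReal.toReal_nonneg,
    one_div_mul_cancel hp0.ne', Real.rpow_one]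
  exact ENNReal.ofReal_toReal_le

lemma fn_lower (A p : ℝ) (hp : 1 < p) (hA : 0 ≤ A) (s : ℕ → Finset ℕ) (x : ℤ_[2]) (k : ℕ)
    (hx : x ∈ cyl k (s k)) (hfin : Phi (A ^ p) s x ≠ ⊤) : A ^ k ≤ ‖fn (A ^ p) p s x‖ := by
  have hp0 : 0 < p := by linarith
  have h1 : 0 ≤ (Phi (A ^ p) s x).toReal ^ (1 / p) := Real.rpow_nonneg ENNReal.toReal_nonneg _
  unfold fn
  rw [Complex.norm_real, Real.norm_of_nonneg h1]
  have h2 : ENNReal.ofReal ((A ^ p) ^ k) ≤ Phi (A ^ p) s x := by
    unfold Phi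
    refine le_trans ?_ (ENNReal.le_tsum k)
    rw [Set.indicator_of_mem hx]
  have h3 : (A ^ p) ^ k ≤ (Phi (A ^ p) s x).toReal := by
    have := ENNReal.toReal_mono hfin h2
    rwa [ENNReal.toReal_ofReal (by positivity)] at this
  calc A ^ k = ((A ^ p) ^ k) ^ (1 / p) := by
        rw [← Real.rpow_natCast (A ^ p) k, ← Real.rpow_mul hA, ← Real.rpow_mul hA]
        rw [show p * (k : ℝ) * (1 / p) = (k : ℝ) by field_simp, Real.rpow_natCast]
    _ ≤ (Phi (A ^ p) s x).toReal ^ (1 / p) :=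
        Real.rpow_le_rpow (by positivity) h3 (by positivity)

/-- The odometer `x ↦ x + 1`. -/
noncomputable def odo : ℤ_[2] ≃ᵐ ℤ_[2] := MeasurableEquiv.addRight 1

lemma odo_iter (n : ℕ) (x : ℤ_[2]) : odo^[n] x = x + n := by
  induction n generalizing x with
  | zero => simp
  | succ n ih =>
    rw [Function.iterate_succ_apply, ih]
    have : odo x = x + 1 := rfl
    rw [this]; push_cast; ring

lemma odo_symm_iter (n : ℕ) (x : ℤ_[2]) : odo.symm^[n] x = x - n := by
  induction n generalizing x with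
  | zero => simp
  | succ n ih =>
    rw [Function.iterate_succ_apply, ih]
    have : odo.symm x = x - 1 := by
      rw [MeasurableEquiv.symm_apply_eq]
      have : odo (x - 1) = x - 1 + 1 := rfl
      rw [this]; ring
    rw [this]; push_cast; ring

lemma odo_mp : MeasurePreserving odo haar2 haar2 := measurePreserving_add_right haar2 1

/-! The pointwise lower bound -/

lemma hZ_at (k m : ℕ) (hm : m < 64 ^ k) : hZ ((64 ^ k + m : ℕ) : ℤ) = HZ k m := by
  have h1 : Nat.log 64 (64 ^ k + m) = k := by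
    rw [Nat.log_eq_iff (Or.inr ⟨by norm_num, by positivity⟩)]
    constructor
    · omega
    · rw [pow_succ]; omega
  have h2 : (1 : ℤ) ≤ ((64 ^ k + m : ℕ) : ℤ) := by
    have : 1 ≤ 64 ^ k := Nat.one_le_pow k 64 (by norm_num)
    omega
  rw [hZ, if_pos h2, Int.toNat_natCast, h1]
  congr 1
  push_cast; ring

lemma res_cast (k : ℕ) (x : ℤ_[2]) : ∃ r : ℕ, r < 64 ^ k ∧ res k x = (r : ZMod (2 ^ (6 * k))) := by
  have : NeZero (2 ^ (6 * k)) := ⟨by positivity⟩
  refine ⟨(res k x).val, ?_, ?_⟩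
  · have := ZMod.val_lt (res k x)
    have e : (2 : ℕ) ^ (6 * k) = 64 ^ k := by rw [pow_mul]; norm_num
    exact lt_of_lt_of_eq this e
  · rw [ZMod.natCast_zmod_val]

lemma pow64_zero (k : ℕ) : ((64 ^ k : ℕ) : ZMod (2 ^ (6 * k))) = 0 := by
  have e : (64 : ℕ) ^ k = 2 ^ (6 * k) := by rw [pow_mul]; norm_num
  rw [e]
  exact ZMod.natCast_self _

lemma term_lower (A B p q : ℝ) (hp : 1 < p) (hq : 1 < q) (hA : 0 ≤ A) (hB : 0 ≤ B) (x : ℤ_[2])
    (hf : ∀ n : ℕ, Phi (A ^ p) Gset (x + n) ≠ ⊤) (hg : ∀ n : ℕ, Phi (B ^ q) Eset (x - n) ≠ ⊤)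
    (k : ℕ) : ∃ n : ℕ, 1 ≤ n ∧
      (2 ^ k - 1) * (A ^ k * B ^ k) / (2 * 64 ^ k) ≤
        ‖wt n * (fn (A ^ p) p Gset (odo^[n] x) * fn (B ^ q) q Eset (odo.symm^[n] x))‖ / n := by
  obtain ⟨r, hr, hxr⟩ := res_cast k x
  have hd := dig_lt k r
  have hone : 1 ≤ 64 ^ k := Nat.one_le_pow k 64 (by norm_num)
  refine ⟨64 ^ k + dig k r, by omega, ?_⟩
  rw [odo_iter, odo_symm_iter]
  set n : ℕ := 64 ^ k + dig k r with hn
  have hresn : res k ((n : ℕ) : ℤ_[2]) = (dig k r : ZMod (2 ^ (6 * k))) := by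
    rw [map_natCast, hn]
    push_cast
    have := pow64_zero k
    push_cast at this
    rw [this, zero_add]
  have hmem1 : x + (n : ℤ_[2]) ∈ cyl k (Gset k) := by
    refine ⟨r + dig k r, add_dig_mem k r hr, ?_⟩
    rw [map_add, hxr, hresn]; push_cast; rfl
  have hmem2 : x - (n : ℤ_[2]) ∈ cyl k (Eset k) := by
    refine ⟨eps k r, eps_mem k r, ?_⟩
    rw [map_sub, hxr, hresn]
    have h1 := eps_add_dig k r hr
    have h2 : (r : ZMod (2 ^ (6 * k))) = (eps k r : ZMod (2 ^ (6 * k))) + (dig k r : ZMod (2 ^ (6 * k))) := by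
      rw [← Nat.cast_add, h1]
    rw [h2]; ring
  have l1 := fn_lower A p hp hA Gset _ k hmem1 (hf n)
  have l2 := fn_lower B q hq hB Eset _ k hmem2 (hg n)
  have l3 : (2 : ℝ) ^ k - 1 ≤ ‖wt (n : ℤ)‖ := by
    have h1 : ‖((hZ (n : ℤ) : ℤ) : ℂ)‖ = 2 ^ k := by
      rw [hn, hZ_at k _ hd, Complex.norm_intCast, ← Int.cast_abs, Int.abs_eq_natAbs, HZ_dig]
      push_cast; rfl
    have h2 : ((hZ (n : ℤ) : ℤ) : ℂ) = wt (n : ℤ) - 1 := by unfold wt; ring
    have h3 : ‖wt (n : ℤ) - 1‖ ≤ ‖wt (n : ℤ)‖ + ‖(1 : ℂ)‖ := norm_sub_le _ _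
    rw [← h2, h1, norm_one] at h3
    linarith
  have h2k : (0 : ℝ) ≤ 2 ^ k - 1 := by
    have : (1 : ℝ) ≤ 2 ^ k := one_le_pow₀ (by norm_num)
    linarith
  rw [norm_mul, norm_mul]
  have hnpos : (0 : ℝ) < (n : ℝ) := by
    have : 0 < n := by omega
    exact_mod_cast this
  have hnle : (n : ℝ) ≤ 2 * 64 ^ k := by
    have : n ≤ 2 * 64 ^ k := by omega
    exact_mod_cast this
  have hnum : (2 ^ k - 1) * (A ^ k * B ^ k) ≤
      ‖wt (n : ℤ)‖ * (‖fn (A ^ p) p Gset (x + n)‖ * ‖fn (B ^ q) q Eset (x - n)‖) := by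
    apply mul_le_mul l3 _ (by positivity) (norm_nonneg _)
    exact mul_le_mul l1 l2 (by positivity) (norm_nonneg _)
  calc (2 ^ k - 1) * (A ^ k * B ^ k) / (2 * 64 ^ k)
      ≤ (2 ^ k - 1) * (A ^ k * B ^ k) / n := by
        apply div_le_div_of_nonneg_left _ hnpos hnle
        positivity
    _ ≤ _ := div_le_div_of_nonneg_right hnum hnpos.le

lemma unbounded_of_terms (a : ℕ → ℂ) (h : ∀ K : ℝ, ∃ n : ℕ, 1 ≤ n ∧ K < ‖a n‖ / n) :
    ¬ BddAbove (Set.range fun N : ℕ => ‖(1 / (N : ℂ)) * ∑ n ∈ Finset.Icc 1 N, a n‖) := by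
  rintro ⟨K, hK⟩
  have hb : ∀ N : ℕ, ‖(1 / (N : ℂ)) * ∑ n ∈ Finset.Icc 1 N, a n‖ ≤ K := fun N => hK ⟨N, rfl⟩
  have hs : ∀ N : ℕ, ‖∑ n ∈ Finset.Icc 1 N, a n‖ ≤ K * N := by
    intro N
    rcases Nat.eq_zero_or_pos N with h0 | h0
    · subst h0; simp
    · have hN : (0 : ℝ) < N := by exact_mod_cast h0
      have := hb N
      rw [norm_mul] at this
      have e : ‖(1 / (N : ℂ))‖ = 1 / N := by simp
      rw [e, one_div, inv_mul_le_iff₀ hN] at this
      linarith
  obtain ⟨n, hn1, hn⟩ := h (2 * K)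
  have hnpos : (0 : ℝ) < n := by exact_mod_cast hn1
  rw [lt_div_iff₀ hnpos] at hn
  have hK0 : 0 ≤ K := (norm_nonneg _).trans (hb 0)
  obtain ⟨m, rfl⟩ : ∃ m, n = m + 1 := ⟨n - 1, by omega⟩
  have h1 : a (m + 1) = (∑ n ∈ Finset.Icc 1 (m + 1), a n) - ∑ n ∈ Finset.Icc 1 m, a n := by
    rw [Finset.sum_Icc_succ_top (by omega)]; ring
  have h2 : ‖a (m + 1)‖ ≤ K * ((m + 1 : ℕ) : ℝ) + K * (m : ℝ) := by
    rw [h1]
    exact (norm_sub_le _ _).trans (add_le_add (hs _) (hs _))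
  push_cast at h2 hn
  nlinarith

lemma not_bdd (A B p q : ℝ) (hp : 1 < p) (hq : 1 < q) (hA : 0 ≤ A) (hB : 0 ≤ B) (hAB : 32 < A * B)
    (x : ℤ_[2])
    (hf : ∀ n : ℕ, Phi (A ^ p) Gset (x + n) ≠ ⊤) (hg : ∀ n : ℕ, Phi (B ^ q) Eset (x - n) ≠ ⊤) :
    ¬ BddAbove (Set.range fun N : ℕ =>
      ‖bilinearAverage wt odo (fn (A ^ p) p Gset) (fn (B ^ q) q Eset) N x‖) := by
  unfold bilinearAverage
  apply unbounded_of_terms (fun n => wt (n : ℤ) * (fn (A ^ p) p Gset (odo^[n] x) *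
    fn (B ^ q) q Eset (odo.symm^[n] x)))
  intro K
  have ht : Tendsto (fun k : ℕ => (1 / 4 : ℝ) * (A * B / 32) ^ k) atTop atTop := by
    apply Tendsto.const_mul_atTop (by norm_num)
    apply tendsto_pow_atTop_atTop_of_one_lt
    rw [lt_div_iff₀ (by norm_num)]; linarith
  obtain ⟨k, hk1, hk⟩ := ((eventually_ge_atTop 1).and (ht.eventually_gt_atTop K)).exists
  obtain ⟨n, hn1, hn⟩ := term_lower A B p q hp hq hA hB x hf hg k
  refine ⟨n, hn1, lt_of_lt_of_le hk (le_trans ?_ hn)⟩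
  have h2k : (2 : ℝ) ^ k / 2 ≤ 2 ^ k - 1 := by
    have : (2 : ℝ) ≤ 2 ^ k := by
      calc (2 : ℝ) = 2 ^ 1 := by norm_num
        _ ≤ 2 ^ k := pow_le_pow_right₀ (by norm_num) hk1
    linarith
  have e1 : (1 / 4 : ℝ) * (A * B / 32) ^ k = (2 ^ k / 2) * (A ^ k * B ^ k) / (2 * 64 ^ k) := by
    rw [div_pow, mul_pow]
    have : (64 : ℝ) ^ k = 2 ^ k * 32 ^ k := by rw [← mul_pow]; norm_num
    rw [this]
    field_simp
    ring
  rw [e1]
  apply div_le_div_of_nonneg_right _ (by positivity)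
  exact mul_le_mul_of_nonneg_right h2k (by positivity)

lemma ae_finite (a c : ℝ) (ha : 0 ≤ a) (hc : 0 ≤ c) (hac : a * c < 64) (s : ℕ → Finset ℕ)
    (hs : ∀ k, ((s k).card : ℝ) ≤ c ^ k) : ∀ᵐ x ∂haar2, Phi a s x ≠ ⊤ := by
  have := ae_lt_top (measurable_Phi a s) (lintegral_Phi a c ha hc hac s hs).ne
  filter_upwards [this] with x hx using hx.ne

lemma ae_shift (P : ℤ_[2] → Prop) (hP : ∀ᵐ x ∂haar2, P x) (c : ℤ_[2]) :
    ∀ᵐ x ∂haar2, P (x + c) :=
  (measurePreserving_add_right haar2 c).quasiMeasurePreserving.ae hP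

/-- The main divergence statement. -/
theorem divergence (p q : ℝ) (hp : 1 < p) (hq : 1 < q)
    (hpq : 32 < (4 / 3 : ℝ) ^ (1 / p) * (32 : ℝ) ^ (1 / q)) :
    ∃ f g : ℤ_[2] → ℂ, MemLp f (ENNReal.ofReal p) haar2 ∧ MemLp g (ENNReal.ofReal q) haar2 ∧
      ∀ᵐ x ∂haar2, ¬ BddAbove (Set.range fun N : ℕ => ‖bilinearAverage wt odo f g N x‖) := by
  have hp0 : 0 < p := by linarith
  have hq0 : 0 < q := by linarith
  set X : ℝ := (4 / 3 : ℝ) ^ (1 / p) * (32 : ℝ) ^ (1 / q) with hX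
  have hXpos : 0 < X := by linarith
  set ρ : ℝ := (32 / X) ^ (1 / 3 : ℝ) with hρ
  have hlt1 : 32 / X < 1 := by rw [div_lt_one hXpos]; exact hpq
  have hρpos : 0 < ρ := Real.rpow_pos_of_pos (by positivity) _
  have hρ1 : ρ < 1 := Real.rpow_lt_one (by positivity) hlt1 (by norm_num)
  have hρ3 : ρ ^ 3 = 32 / X := by
    rw [hρ, ← Real.rpow_natCast, ← Real.rpow_mul (by positivity)]; norm_num
  set A : ℝ := (4 / 3 : ℝ) ^ (1 / p) * ρ with hAdef
  set B : ℝ := (32 : ℝ) ^ (1 / q) * ρ with hBdef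
  have hA : 0 ≤ A := by positivity
  have hB : 0 ≤ B := by positivity
  have hAB : 32 < A * B := by
    have e : A * B = X * ρ ^ 2 := by rw [hAdef, hBdef, hX]; ring
    rw [e]
    have h1 : X * ρ ^ 3 = 32 := by rw [hρ3]; field_simp
    have h2 : X * ρ ^ 3 < X * ρ ^ 2 := by
      apply mul_lt_mul_of_pos_left _ hXpos
      have : ρ ^ 3 = ρ ^ 2 * ρ := by ring
      rw [this]
      have : 0 < ρ ^ 2 := by positivity
      nlinarith
    linarith
  have hAp : A ^ p = 4 / 3 * ρ ^ p := by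
    rw [hAdef, Real.mul_rpow (by positivity) hρpos.le, ← Real.rpow_mul (by norm_num),
      one_div_mul_cancel hp0.ne', Real.rpow_one]
  have hBq : B ^ q = 32 * ρ ^ q := by
    rw [hBdef, Real.mul_rpow (by positivity) hρpos.le, ← Real.rpow_mul (by norm_num),
      one_div_mul_cancel hq0.ne', Real.rpow_one]
  have hρp : ρ ^ p < 1 := Real.rpow_lt_one hρpos.le hρ1 hp0
  have hρq : ρ ^ q < 1 := Real.rpow_lt_one hρpos.le hρ1 hq0
  have hac1 : A ^ p * 48 < 64 := by rw [hAp]; linarith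
  have hac2 : B ^ q * 2 < 64 := by rw [hBq]; linarith
  have hsG : ∀ k, ((Gset k).card : ℝ) ≤ (48 : ℝ) ^ k := fun k => by exact_mod_cast Gset_card k
  have hsE : ∀ k, ((Eset k).card : ℝ) ≤ (2 : ℝ) ^ k := fun k => by exact_mod_cast Eset_card k
  refine ⟨fn (A ^ p) p Gset, fn (B ^ q) q Eset,
    fn_memLp (A ^ p) 48 p hp (by positivity) (by norm_num) hac1 Gset hsG,
    fn_memLp (B ^ q) 2 q hq (by positivity) (by norm_num) hac2 Eset hsE, ?_⟩
  have haf : ∀ n : ℕ, ∀ᵐ x ∂haar2, Phi (A ^ p) Gset (x + n) ≠ ⊤ := by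
    intro n
    exact ae_shift (fun y => Phi (A ^ p) Gset y ≠ ⊤)
      (ae_finite (A ^ p) 48 (by positivity) (by norm_num) hac1 Gset hsG) (n : ℤ_[2])
  have hag : ∀ n : ℕ, ∀ᵐ x ∂haar2, Phi (B ^ q) Eset (x - n) ≠ ⊤ := by
    intro n
    have := ae_shift (fun y => Phi (B ^ q) Eset y ≠ ⊤)
      (ae_finite (B ^ q) 2 (by positivity) (by norm_num) hac2 Eset hsE) (-(n : ℤ_[2]))
    filter_upwards [this] with x hx
    rwa [sub_eq_add_neg]
  filter_upwards [ae_all_iff.2 haf, ae_all_iff.2 hag] with x hx1 hx2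
  exact not_bdd A B p q hp hq hA hB hAB x hx1 hx2

end Pool.Agent.Lib.MP_365e45_an
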