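import Pool.Agent.Lib.MP_365e45_an.Bridge
import Pool.Agent.Lib.MP_365e45_an.Defs

/-!
The weight and its Gowers norm.
-/

set_option autoImplicit false

namespace Pool.Agent.Lib.MP_365e45_an

open Finset

/-- the perturbation. -/
def hZ (n : ℤ) : ℤ :=
  if 1 ≤ n then HZ (Nat.log 64 n.toNat) (n - 64 ^ (Nat.log 64 n.toNat)) else 0

lemma hZ_eq_sum (K : ℕ) (n : ℤ) (hn : n < 64 ^ (K + 1)) :
    hZ n = ∑ j ∈ range (K + 1), HZ j (n - ((64 ^ j : ℕ) : ℤ)) := by
  by_cases h1 : 1 ≤ n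
  · obtain ⟨m, rfl⟩ := Int.eq_ofNat_of_zero_le (by omega : 0 ≤ n)
    have hm : m ≠ 0 := by omega
    rw [hZ, if_pos h1, Int.toNat_natCast]
    set j := Nat.log 64 m with hj
    have hl : 64 ^ j ≤ m := Nat.pow_log_le_self 64 hm
    have hu : m < 64 ^ (j + 1) := Nat.lt_pow_succ_log_self (by norm_num) m
    have hjK : j < K + 1 := by
      have hnn : m < 64 ^ (K + 1) := by exact_mod_cast hn
      by_contra hcon
      push Not at hcon
      have : 64 ^ (K + 1) ≤ 64 ^ j := Nat.pow_le_pow_right (by norm_num) hcon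
      omega
    rw [Finset.sum_eq_single j]
    · push_cast; rfl
    · intro i _ hij
      rcases Nat.lt_or_gt_of_ne hij with h | h
      · apply HZ_ge
        have h2 : 64 ^ (i + 1) ≤ 64 ^ j := Nat.pow_le_pow_right (by norm_num) h
        rw [pow_succ] at h2
        have h3 : 64 ^ i * 64 ≤ m := h2.trans hl
        have h4 : (64 : ℤ) ^ i * 64 ≤ m := by exact_mod_cast h3
        push_cast
        have h5 : (0 : ℤ) < 64 ^ i := by positivity
        omega
      · apply HZ_neg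
        have h2 : 64 ^ (j + 1) ≤ 64 ^ i := Nat.pow_le_pow_right (by norm_num) h
        have h3 : m < 64 ^ i := lt_of_lt_of_le hu h2
        have h4 : (m : ℤ) < ((64 ^ i : ℕ) : ℤ) := by exact_mod_cast h3
        omega
    · intro hh; exact absurd (Finset.mem_range.2 hjK) hh
  · rw [hZ, if_neg h1, Finset.sum_eq_zero]
    intro j _
    apply HZ_neg
    have : (1 : ℤ) ≤ ((64 ^ j : ℕ) : ℤ) := by
      have := Nat.one_le_pow j 64 (by norm_num)
      exact_mod_cast this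
    omega

/-- truncation of an integer function. -/
def truncZ (N : ℕ) (F : ℤ → ℤ) (n : ℤ) : ℤ := if 1 ≤ n ∧ n ≤ (N : ℤ) then F n else 0

lemma truncZ_hZ (K N : ℕ) (h1 : 64 ^ K ≤ N) (h2 : N < 64 ^ (K + 1)) :
    truncZ N hZ = fun n => (∑ j ∈ range K, (fun _ => (1 : ℤ)) j * (fun j z => HZ j (z - ((64 ^ j : ℕ) : ℤ))) j n)
      + 1 * (fun z => PZ K (N + 1 - 64 ^ K) (z - ((64 ^ K : ℕ) : ℤ))) n := by
  funext n
  have h1' : (64 : ℤ) ^ K ≤ N := by exact_mod_cast h1
  have h2' : (N : ℤ) < 64 ^ (K + 1) := by exact_mod_cast h2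
  simp only [one_mul]
  by_cases hn : n ≤ (N : ℤ)
  · have hn' : n < 64 ^ (K + 1) := by omega
    have e := hZ_eq_sum K n hn'
    rw [Finset.sum_range_succ] at e
    have e2 : PZ K (N + 1 - 64 ^ K) (n - ((64 ^ K : ℕ) : ℤ)) = HZ K (n - ((64 ^ K : ℕ) : ℤ)) := by
      rw [PZ, if_pos]; push_cast; omega
    rw [e2, ← e]
    unfold truncZ
    by_cases h : 1 ≤ n
    · rw [if_pos ⟨h, hn⟩]
    · rw [if_neg (by tauto), hZ, if_neg h]
  · rw [truncZ, if_neg (by tauto)]
    symm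
    have e2 : PZ K (N + 1 - 64 ^ K) (n - ((64 ^ K : ℕ) : ℤ)) = 0 := by
      rw [PZ, if_neg]; push_cast; omega
    rw [e2, add_zero]
    apply Finset.sum_eq_zero
    intro j hj
    apply HZ_ge
    have hj' : j + 1 ≤ K := Finset.mem_range.1 hj
    have h3 : (64 : ℤ) ^ (j + 1) ≤ 64 ^ K := pow_le_pow_right₀ (by norm_num) hj'
    rw [pow_succ] at h3
    have h5 : (0 : ℤ) < 64 ^ j := by positivity
    push_cast
    omega

lemma truncZ_zero_of_neg (N : ℕ) (F : ℤ → ℤ) (z : ℤ) (hz : z < 0) : truncZ N F z = 0 := by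
  rw [truncZ, if_neg]; omega

lemma truncZ_zero_of_ge (N : ℕ) (F : ℤ → ℤ) (z : ℤ) (hz : ((N + 1 : ℕ) : ℤ) ≤ z) : truncZ N F z = 0 := by
  rw [truncZ, if_neg]; push_cast at hz; omega

lemma q0_pos : (0 : ℝ) < q0 := by unfold q0; norm_num

lemma geom_q0 (K : ℕ) : ∑ j ∈ range K, q0 ^ j ≤ q0 ^ K := by
  induction K with
  | zero => simp
  | succ K ih =>
    rw [Finset.sum_range_succ, pow_succ]
    have : (0 : ℝ) < q0 ^ K := pow_pos q0_pos K
    have hq : (2 : ℝ) ≤ q0 := by unfold q0; norm_num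
    nlinarith

lemma V_trunc_le (K N : ℕ) (h1 : 64 ^ K ≤ N) (h2 : N < 64 ^ (K + 1)) :
    ((V (N + 1) (truncZ N hZ) : ℤ) : ℝ) ≤ (13 * q0 ^ K) ^ 8 := by
  set M : ℕ := 4 * 64 ^ (K + 1) with hM
  have : NeZero M := ⟨by positivity⟩
  have hML : 4 * (N + 1) ≤ M := by omega
  rw [← S3_lift M (N + 1) hML (truncZ N hZ) (truncZ_zero_of_neg N hZ) (truncZ_zero_of_ge N hZ),
    ← N3_pow8]
  apply pow_le_pow_left₀ (N3_nonneg _)
  rw [truncZ_hZ K N h1 h2]
  refine (N3_lift_sum_le M (range K) (fun _ => (1 : ℤ)) (fun j z => HZ j (z - ((64 ^ j : ℕ) : ℤ)))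
    1 (fun z => PZ K (N + 1 - 64 ^ K) (z - ((64 ^ K : ℕ) : ℤ)))).trans ?_
  have hpow : ∀ j ≤ K, 64 ^ j ≤ 64 ^ K := fun j hj => Nat.pow_le_pow_right (by norm_num) hj
  have hM' : M = 256 * 64 ^ K := by rw [hM, pow_succ]; ring
  have hA : ∀ j ∈ range K, |(((fun _ => (1 : ℤ)) j : ℤ) : ℝ)| *
      N3 (lift M ((fun j z => HZ j (z - ((64 ^ j : ℕ) : ℤ))) j)) ≤ q0 ^ j := by
    intro j hj
    have hj' := hpow j (Finset.mem_range.1 hj).le
    simp only [Int.cast_one, abs_one, one_mul]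
    rw [N3_lift_shift M (64 ^ j) (64 ^ j) (by omega) (HZ j) (fun z hz => HZ_neg j z hz)
      (fun z hz => HZ_ge j z (by exact_mod_cast hz))]
    exact N3_HZ M j (by omega)
  have hB : |((1 : ℤ) : ℝ)| * N3 (lift M (fun z => PZ K (N + 1 - 64 ^ K) (z - ((64 ^ K : ℕ) : ℤ))))
      ≤ 12 * q0 ^ K := by
    simp only [Int.cast_one, abs_one, one_mul]
    rw [N3_lift_shift M (64 ^ K) (64 ^ K) (by omega) (PZ K (N + 1 - 64 ^ K))
      (fun z hz => PZ_neg K _ z hz) (fun z hz => PZ_ge K _ z (by exact_mod_cast hz))]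
    have h1' : (64 : ℤ) ^ K ≤ N := by exact_mod_cast h1
    exact N3_PZ M K (by omega) _ (by omega)
  calc _ ≤ (∑ j ∈ range K, q0 ^ j) + 12 * q0 ^ K := add_le_add (Finset.sum_le_sum hA) hB
    _ ≤ q0 ^ K + 12 * q0 ^ K := by have := geom_q0 K; linarith
    _ = 13 * q0 ^ K := by ring

/-- splitting a sum over three-dimensional boxes. -/
lemma sum_piFinset_three (s : Finset ℤ) (f : (Fin 3 → ℤ) → ℂ) :
    ∑ h ∈ Fintype.piFinset (fun _ : Fin 3 => s), f h
      = ∑ a ∈ s, ∑ b ∈ s, ∑ c ∈ s, f ![a, b, c] := by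
  rw [← Finset.sum_product', ← Finset.sum_product']
  symm
  refine Finset.sum_bij' (fun p _ => ![p.1.1, p.1.2, p.2]) (fun h _ => ((h 0, h 1), h 2)) ?_ ?_ ?_ ?_ ?_
  · rintro ⟨⟨a, b⟩, c⟩ hp
    simp only [Finset.mem_product] at hp
    rw [Fintype.mem_piFinset]
    intro i
    fin_cases i
    · exact hp.1.1
    · exact hp.1.2
    · exact hp.2
  · intro h hh
    rw [Fintype.mem_piFinset] at hh
    simp only [Finset.mem_product]
    exact ⟨⟨hh 0, hh 1⟩, hh 2⟩
  · rintro ⟨⟨a, b⟩, c⟩ _; rfl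
  · intro h _
    funext i
    fin_cases i <;> rfl
  · rintro ⟨⟨a, b⟩, c⟩ _; rfl

lemma univ_bool3 : (Finset.univ : Finset (Fin 3 → Bool)) =
    {![false, false, false], ![true, false, false], ![false, true, false], ![true, true, false],
     ![false, false, true], ![true, false, true], ![false, true, true], ![true, true, true]} := by
  decide

lemma prod_bool3 (f : (Fin 3 → Bool) → ℂ) : ∏ ω, f ω =
    f ![false, false, false] * (f ![true, false, false] * (f ![false, true, false] *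
    (f ![true, true, false] * (f ![false, false, true] * (f ![true, false, true] *
    (f ![false, true, true] * f ![true, true, true])))))) := by
  rw [univ_bool3, Finset.prod_insert (by decide), Finset.prod_insert (by decide),
    Finset.prod_insert (by decide), Finset.prod_insert (by decide), Finset.prod_insert (by decide),
    Finset.prod_insert (by decide), Finset.prod_insert (by decide), Finset.prod_singleton]

lemma sum_shift_Icc (N : ℕ) (x : ℤ) (hx : x ∈ Finset.Icc (1 : ℤ) N) (φ : ℤ → ℂ)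
    (hφ : ∀ y : ℤ, y < 1 ∨ (N : ℤ) < y → φ y = 0) :
    ∑ h ∈ Finset.Icc (-(N : ℤ)) N, φ (x + h) = ∑ y ∈ range (N + 1), φ (y : ℤ) := by
  rw [Finset.mem_Icc] at hx
  have h1 : ∑ h ∈ Finset.Icc (-(N : ℤ)) N, φ (x + h) = ∑ y ∈ Finset.Icc (x - N) (x + N), φ y := by
    refine Finset.sum_bij' (fun h _ => x + h) (fun y _ => y - x) ?_ ?_ ?_ ?_ ?_
    · intro h hh; rw [Finset.mem_Icc] at hh ⊢; omega
    · intro y hy; rw [Finset.mem_Icc] at hy ⊢; omega
    · intro h _; ring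
    · intro y _; ring
    · intro h _; rfl
  have h2 : ∑ y ∈ Finset.Icc (x - N) (x + N), φ y = ∑ y ∈ Finset.Icc (0 : ℤ) N, φ y := by
    have e1 : ∑ y ∈ Finset.Icc (x - N) (x + N), φ y = ∑ y ∈ Finset.Icc (-(N : ℤ)) (2 * N), φ y := by
      apply Finset.sum_subset
      · intro y hy; rw [Finset.mem_Icc] at hy ⊢; omega
      · intro y hy hny; apply hφ; rw [Finset.mem_Icc] at hy hny; omega
    have e2 : ∑ y ∈ Finset.Icc (0 : ℤ) N, φ y = ∑ y ∈ Finset.Icc (-(N : ℤ)) (2 * N), φ y := by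
      apply Finset.sum_subset
      · intro y hy; rw [Finset.mem_Icc] at hy ⊢; omega
      · intro y hy hny; apply hφ; rw [Finset.mem_Icc] at hy hny; omega
    rw [e1, e2]
  have h3 : ∑ y ∈ range (N + 1), φ (y : ℤ) = ∑ y ∈ Finset.Icc (0 : ℤ) N, φ y := by
    refine Finset.sum_bij' (fun n _ => (n : ℤ)) (fun y _ => y.toNat) ?_ ?_ ?_ ?_ ?_
    · intro n hn; rw [Finset.mem_range] at hn; rw [Finset.mem_Icc]; omega
    · intro y hy; rw [Finset.mem_Icc] at hy; rw [Finset.mem_range]; omega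
    · intro n _; simp
    · intro y hy; rw [Finset.mem_Icc] at hy; simp [hy.1]
    · intro n _; rfl
  rw [h1, h2, h3]

lemma truncate_cast (N : ℕ) (F : ℤ → ℤ) (z : ℤ) :
    truncate N (fun n => (F n : ℂ)) z = ((truncZ N F z : ℤ) : ℂ) := by
  unfold truncate truncZ
  split_ifs <;> simp

lemma sum_range_succ_Icc (N : ℕ) (φ : ℤ → ℂ) (hφ : φ 0 = 0) :
    ∑ y ∈ range (N + 1), φ (y : ℤ) = ∑ x ∈ Finset.Icc (1 : ℤ) N, φ x := by
  rw [Finset.sum_range_succ']
  simp only [Nat.cast_zero, hφ, add_zero]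
  refine Finset.sum_bij' (fun n _ => ((n + 1 : ℕ) : ℤ)) (fun y _ => y.toNat - 1) ?_ ?_ ?_ ?_ ?_
  · intro n hn; rw [Finset.mem_range] at hn; rw [Finset.mem_Icc]; omega
  · intro y hy; rw [Finset.mem_Icc] at hy; rw [Finset.mem_range]; omega
  · intro n _; simp
  · intro y hy; rw [Finset.mem_Icc] at hy; push_cast; omega
  · intro n _; rfl

/-- The Gowers sum of a real function in terms of the vertex form. -/
lemma gowersSum_three (N : ℕ) (F : ℤ → ℤ) :
    gowersSum 3 N (fun n => (F n : ℂ)) = ((V (N + 1) (truncZ N F) : ℤ) : ℂ) := by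
  set T : ℤ → ℤ := truncZ N F with hT
  have hT0 : ∀ y : ℤ, y < 1 ∨ (N : ℤ) < y → T y = 0 := by
    intro y hy; rw [hT, truncZ, if_neg]; omega
  have hprod : ∀ (x : ℤ) (h : Fin 3 → ℤ), (∏ ω : Fin 3 → Bool,
      if Even (Finset.univ.filter (fun i => ω i = true)).card then
        truncate N (fun n => (F n : ℂ)) (x + ∑ i, if ω i = true then h i else 0)
      else (starRingEnd ℂ) (truncate N (fun n => (F n : ℂ)) (x + ∑ i, if ω i = true then h i else 0)))
      = ∏ ω : Fin 3 → Bool, ((T (x + ∑ i, if ω i = true then h i else 0) : ℤ) : ℂ) := by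
    intro x h
    refine Finset.prod_congr rfl fun ω _ => ?_
    rw [truncate_cast]
    split_ifs
    · rfl
    · exact map_intCast (starRingEnd ℂ) _
  have hvert : ∀ (x a b c : ℤ), (∏ ω : Fin 3 → Bool,
      ((T (x + ∑ i, if ω i = true then (![a, b, c] : Fin 3 → ℤ) i else 0) : ℤ) : ℂ))
      = ((vertZ T x (x + a) (x + b) (x + c) : ℤ) : ℂ) := by
    intro x a b c
    rw [prod_bool3]
    simp only [Fin.sum_univ_three, Matrix.cons_val_zero, Matrix.cons_val_one, Matrix.cons_val]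
    unfold vertZ
    have e1 : x + a + (x + b) - x = x + (a + b) := by ring
    have e2 : x + a + (x + c) - x = x + (a + c) := by ring
    have e3 : x + b + (x + c) - x = x + (b + c) := by ring
    have e4 : x + a + (x + b) + (x + c) - 2 * x = x + (a + b + c) := by ring
    rw [e1, e2, e3, e4]
    push_cast
    simp
    ring
  unfold gowersSum V
  simp only [hprod, sum_piFinset_three, hvert]
  have hz1 : ∀ y₁ y₂ y₃ : ℤ, ((vertZ T 0 y₁ y₂ y₃ : ℤ) : ℂ) = 0 := by
    intro y₁ y₂ y₃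
    unfold vertZ; rw [hT0 0 (by omega)]; simp
  push_cast
  rw [sum_range_succ_Icc N (fun x => ∑ y₁ ∈ range (N + 1), ∑ y₂ ∈ range (N + 1),
    ∑ y₃ ∈ range (N + 1), ((vertZ T x y₁ y₂ y₃ : ℤ) : ℂ))]
  · refine Finset.sum_congr rfl fun x hx => ?_
    rw [← sum_shift_Icc N x hx (fun y₁ => ∑ y₂ ∈ range (N + 1),
      ∑ y₃ ∈ range (N + 1), ((vertZ T x y₁ y₂ y₃ : ℤ) : ℂ))]
    · refine Finset.sum_congr rfl fun a _ => ?_
      rw [← sum_shift_Icc N x hx (fun y₂ =>
        ∑ y₃ ∈ range (N + 1), ((vertZ T x (x + a) y₂ y₃ : ℤ) : ℂ))]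
      · refine Finset.sum_congr rfl fun b _ => ?_
        rw [← sum_shift_Icc N x hx (fun y₃ => ((vertZ T x (x + a) (x + b) y₃ : ℤ) : ℂ))]
        intro y hy
        unfold vertZ; rw [hT0 y hy]; simp
      · intro y hy
        apply Finset.sum_eq_zero; intro y₃ _
        unfold vertZ; rw [hT0 y hy]; simp
    · intro y hy
      apply Finset.sum_eq_zero; intro y₂ _
      apply Finset.sum_eq_zero; intro y₃ _
      unfold vertZ; rw [hT0 y hy]; simp
  · apply Finset.sum_eq_zero; intro y₁ _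
    apply Finset.sum_eq_zero; intro y₂ _
    apply Finset.sum_eq_zero; intro y₃ _
    exact hz1 _ _ _

/-- lower bound for the number of cubes in `{1, …, N}`. -/
lemma V_one_ge (N : ℕ) : (N : ℝ) ^ 4 / 256 ≤ ((V (N + 1) (truncZ N (fun _ => 1)) : ℤ) : ℝ) := by
  set T : ℤ → ℤ := truncZ N (fun _ => 1) with hT
  have hTnn : ∀ z, 0 ≤ T z := by
    intro z; rw [hT, truncZ]; split_ifs <;> norm_num
  have hT1 : ∀ z : ℤ, 1 ≤ z → z ≤ N → T z = 1 := by
    intro z h1 h2; rw [hT, truncZ, if_pos ⟨h1, h2⟩]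
  set m : ℕ := (N + 3) / 4 with hm
  have hvnn : ∀ x y₁ y₂ y₃ : ℤ, 0 ≤ vertZ T x y₁ y₂ y₃ := by
    intro x y₁ y₂ y₃
    unfold vertZ
    exact mul_nonneg (mul_nonneg (mul_nonneg (hTnn _) (hTnn _)) (mul_nonneg (hTnn _) (hTnn _)))
      (mul_nonneg (mul_nonneg (hTnn _) (hTnn _)) (mul_nonneg (hTnn _) (hTnn _)))
  have hsub : ∀ x ∈ Finset.Ico 1 (m + 1), Finset.Ico x (x + m) ⊆ range (N + 1) := by
    intro x hx y hy
    rw [Finset.mem_Ico] at hx hy
    rw [Finset.mem_range]; omega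
  have hV : ((m : ℤ) ^ 4) ≤ V (N + 1) T := by
    calc ((m : ℤ) ^ 4) = ∑ x ∈ Finset.Ico 1 (m + 1), ∑ y₁ ∈ Finset.Ico x (x + m),
          ∑ y₂ ∈ Finset.Ico x (x + m), ∑ y₃ ∈ Finset.Ico x (x + m), (1 : ℤ) := by
          simp only [Finset.sum_const, Nat.card_Ico]
          simp
          ring
      _ ≤ ∑ x ∈ Finset.Ico 1 (m + 1), ∑ y₁ ∈ Finset.Ico x (x + m),
          ∑ y₂ ∈ Finset.Ico x (x + m), ∑ y₃ ∈ Finset.Ico x (x + m),
            vertZ T x y₁ y₂ y₃ := by
          refine Finset.sum_le_sum fun x hx => Finset.sum_le_sum fun y₁ hy₁ =>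
            Finset.sum_le_sum fun y₂ hy₂ => Finset.sum_le_sum fun y₃ hy₃ => ?_
          rw [Finset.mem_Ico] at hx hy₁ hy₂ hy₃
          unfold vertZ
          rw [hT1 _ (by omega) (by omega), hT1 _ (by omega) (by omega), hT1 _ (by omega) (by omega),
            hT1 _ (by omega) (by omega), hT1 _ (by omega) (by omega), hT1 _ (by omega) (by omega),
            hT1 _ (by omega) (by omega), hT1 _ (by omega) (by omega)]
          norm_num
      _ ≤ ∑ x ∈ Finset.Ico 1 (m + 1), ∑ y₁ ∈ range (N + 1), ∑ y₂ ∈ range (N + 1),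
          ∑ y₃ ∈ range (N + 1), vertZ T x y₁ y₂ y₃ := by
          refine Finset.sum_le_sum fun x hx => ?_
          refine (Finset.sum_le_sum fun y₁ _ => ?_).trans
            (Finset.sum_le_sum_of_subset_of_nonneg (hsub x hx) fun y₁ _ _ =>
              Finset.sum_nonneg fun y₂ _ => Finset.sum_nonneg fun y₃ _ => hvnn _ _ _ _)
          refine (Finset.sum_le_sum fun y₂ _ => ?_).trans
            (Finset.sum_le_sum_of_subset_of_nonneg (hsub x hx) fun y₂ _ _ =>
              Finset.sum_nonneg fun y₃ _ => hvnn _ _ _ _)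
          exact Finset.sum_le_sum_of_subset_of_nonneg (hsub x hx) fun y₃ _ _ => hvnn _ _ _ _
      _ ≤ V (N + 1) T := by
          unfold V
          apply Finset.sum_le_sum_of_subset_of_nonneg
          · intro x hx
            rw [Finset.mem_Ico] at hx
            rw [Finset.mem_range]; omega
          · intro x _ _
            exact Finset.sum_nonneg fun y₁ _ => Finset.sum_nonneg fun y₂ _ =>
              Finset.sum_nonneg fun y₃ _ => hvnn _ _ _ _
  have h4 : (N : ℝ) ≤ 4 * m := by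
    have : N ≤ 4 * m := by omega
    exact_mod_cast this
  have hV' : ((m : ℝ) ^ 4) ≤ ((V (N + 1) T : ℤ) : ℝ) := by exact_mod_cast hV
  have h5 : (N : ℝ) ^ 4 ≤ (4 * m) ^ 4 := pow_le_pow_left₀ (by positivity) h4 4
  have h6 : (4 * (m : ℝ)) ^ 4 = 256 * (m : ℝ) ^ 4 := by ring
  rw [h6] at h5
  linarith

end Pool.Agent.Lib.MP_365e45_an
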